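import Mathlib

/-!
Project RM (helper99): a random linear system over `F = F_ℓ`. Two independent modules of pure finite
linear algebra.

`CL` (about 120 lines). `V = F ^ m`. On `V × V` we have the form `Q(a, c) = ∑ a_s c_s`. Let `I` be a
set of points `(a, c)` with `a_s (c_s + ∑_b c_b) = 0` for all `s` (`Zc`), whose differences are
isotropic (`Iso`). Claim: `I` has less than `ℓ ^ m` elements, or `a = 0` on `I`, or `c = 0` on `I`.
Proof. Let `I` be nonempty, `v0` in `I`, `W` the span of the differences `v - v0`, `v` in `I`. For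
`v, w` in `I` the polar form `b(v - v0, w - v0) = Q(v - v0) + Q(w - v0) - Q(v - w)` is zero, so
`W ⊆ W^⊥` and `2 dim W ≤ 2 m` (`LinearMap.BilinForm.finrank_orthogonal`). So `|I| ≤ |W| ≤ ℓ ^ m`. If
`|I| = ℓ ^ m` then `I = v0 + W`, closed under the lines through two of its points. Put
`γ_s = c_s + ∑_b c_b`; `γ` determines `c` because `∑ γ = (m + 1) ∑ c`. If `a_s ≠ 0` at `v` and
`γ_s ≠ 0` at `w`, `v, w` in `I`, then `γ_s(v) = 0 = a_s(w)` and at `v + τ (w - v)`, `τ ≠ 0, 1` (`ℓ` is odd),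
the product `a_s γ_s` is `(1 - τ) τ a_s(v) γ_s(w) ≠ 0`, a contradiction. So for all `s`: `a_s = 0` on
`I` or `γ_s = 0` on `I`. Let `T` be the set of the `s` with `a_s = 0` on `I`. Then `I` is contained in
`U = {a_s = 0 for s in T, γ_s = 0 for s not in T}`, which has at most `ℓ ^ m` elements (`(a, c)` is
determined by `γ_s`, `s` in `T`, and `a_s`, `s` not in `T`), so `I = U`. If `T` is everything then
`a = 0` on `I`. If `T` is empty then `γ = 0` and `c = 0` on `I`. Otherwise let `l` in `T`, `l'` not in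
`T`: the points `(0, c)`, `c = e_l - (m + 1)⁻¹ (1, ..., 1)` (so `γ = e_l`), and `(e_{l'}, 0)` are in `U = I`,
but `Q` of their difference is `-c_{l'} = (m + 1)⁻¹ ≠ 0`, a contradiction.

`MO` (about 150 lines; from `CL`). `X` is the space of the pairs `(B, p)`. Fix `t` with all `t_i ≠ 0`. For
`a : Fin r → V` let `Λ_a : X → (Fin r → V)` be the linear map of the system `Sol`. Let `N` be the number of the
pairs `(a, x)` with `Λ_a x = 0`. Double counting of `∑_x ∑_c ψ(<c, Λ_a x>)` (or rank of the transpose)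
gives `N |V| ^ r = |X| M`, where `M` is the number of the pairs `(a, c)` with `<c, Λ_a x> = 0` for all `x`.
Writing `c_x = t_x c'_x` the coefficient of `B_{xy}` is `t_x t_y <c'_x - c'_y, a_x - a_y>` and the
coefficient of `p_{xs}` is `t_x a_xs (c'_xs + ∑_b c'_xb)`. So `M` is the number of the maps
`v : Fin r → V × V` with values in the cone `Zc` and `Iso (v x) (v y)` for all `x, y`. By `CL` applied to
the image of `v`, `M ≤ 2 ℓ ^ (r m) + 2 ^ (ℓ ^ (2 m)) (ℓ ^ m - 1) ^ r`. So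
`N ≤ |X| (2 + δ_r)`, `δ_r = 2 ^ (ℓ ^ (2 m)) (1 - ℓ ^ (-m)) ^ r → 0`. Now `a = 0` contributes `|X|` to `N`,
and each `x` with a nonzero solution has at least `ℓ - 1` nonzero solutions (multiples), so the number
of these `x` is at most `|X| (1 + δ_r) / (ℓ - 1)`.
-/

set_option autoImplicit false

namespace Pool.Agent.D0H99.RM

open Finset

/-- the vectors -/
abbrev V (ℓ m : ℕ) : Type := Fin m → ZMod ℓ

/-- the cone -/
def Zc {ℓ m : ℕ} (v : V ℓ m × V ℓ m) : Prop := ∀ s, v.1 s * (v.2 s + ∑ b, v.2 b) = 0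

/-- the difference is isotropic -/
def Iso {ℓ m : ℕ} (v w : V ℓ m × V ℓ m) : Prop := ∑ s, (v.1 s - w.1 s) * (v.2 s - w.2 s) = 0

/-- CL: the large isotropic sets in the cone -/
def S_CL : Prop := ∀ (ℓ m : ℕ), ℓ.Prime → ℓ ≠ 2 → ¬ ℓ ∣ m + 1 →
  ∀ I : Finset (V ℓ m × V ℓ m), (∀ v ∈ I, Zc v) → (∀ v ∈ I, ∀ w ∈ I, Iso v w) →
    I.card < ℓ ^ m ∨ (∀ v ∈ I, v.1 = 0) ∨ (∀ v ∈ I, v.2 = 0)

/-- the symmetric matrix with zero diagonal -/
def sy {ℓ r : ℕ} (B : ∀ i : Fin r, Fin (i : ℕ) → ZMod ℓ) (i j : Fin r) : ZMod ℓ :=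
  if h : (j : ℕ) < i then B i ⟨j, h⟩ else if h : (i : ℕ) < j then B j ⟨i, h⟩ else 0

/-- the linear system -/
def Sol {ℓ m r : ℕ} (t : Fin r → ZMod ℓ) (A : Fin r → Fin r → ZMod ℓ) (p : Fin r → V ℓ m)
    (a : Fin r → V ℓ m) : Prop :=
  ∀ x b, ∑ y, t y * A x y * (a x b - a y b) + ∑ s, a x s * p x s + a x b * p x b = 0

/-- the random data -/
abbrev X (ℓ m r : ℕ) : Type := (∀ i : Fin r, Fin (i : ℕ) → ZMod ℓ) × (Fin r → V ℓ m)

/-- MO: the proportion of the systems with a nonzero solution -/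
def S_MO : Prop := ∀ (ℓ m : ℕ), ℓ.Prime → ℓ ≠ 2 → ¬ ℓ ∣ m + 1 →
  ∀ ε : ℝ, 0 < ε → ∃ r0 : ℕ, ∀ r : ℕ, r0 ≤ r → ∀ t : Fin r → ZMod ℓ, (∀ i, t i ≠ 0) →
    (({x : X ℓ m r | ∃ a : Fin r → V ℓ m, a ≠ 0 ∧ Sol t (sy x.1) x.2 a}).ncard : ℝ) ≤
      (1 / ((ℓ : ℝ) - 1) + ε) * Nat.card (X ℓ m r)

end Pool.Agent.D0H99.RM
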