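import Mathlib
import Pool.Agent.D0H99.RM.Stm

/-!
Project RM (helper99), part 2: `ℓ = 2`. Four independent modules (`MO2` uses `CL2` and `PAR` as
hypotheses).

`CL2` (about 130 lines; like `CL`). `m` even, `F = F_2`, `V = F ^ m`, `Q(a, c) = ∑ a_s c_s`,
`γ_s = c_s + ∑_b c_b` (so `∑ γ = ∑ c` because `m + 1` is odd, and `c_s = γ_s + ∑_b γ_b`). Let `I` be a set of
points of `V × V` with `a_s γ_s = 0` for all `s` whose differences are isotropic. Then `|I| < 2 ^ m`, or
`a = 0` on `I`, or `c = 0` on `I`, or `a_s + γ_s = 1` on `I` for all `s`. Proof. Let `v0` be in `I`, `W` the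
span of the `v - v0`. `W` is totally singular for `Q` (`Q(v - v0) = 0` and
`b(v - v0, w - v0) = Q(v - v0) + Q(w - v0) - Q(v - w) = 0`), so `dim W ≤ m`, `|I| ≤ |W| ≤ 2 ^ m`. Let
`|I| = 2 ^ m`, so `I = v0 + W` and `x + y + z` is in `I` for `x, y, z` in `I`. Fix `s`. Suppose `a_s` is
not identically zero on `I` and `γ_s` is not identically zero on `I`. Then `a_s + γ_s = 1` on `I`: take `x`
with `a_s = 1` (so `γ_s = 0`), `y` with `γ_s = 1` (so `a_s = 0`); if `z` in `I` has `a_s = γ_s = 0` then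
`x + y + z` has `a_s = γ_s = 1`, a contradiction. So for each `s` one of the three affine conditions
`a_s = 0`, `γ_s = 0`, `a_s + γ_s = 1` holds on `I`. The set `U` of all points with these conditions (one
chosen for each `s`) has at most `2 ^ m` elements, so `I = U`. Let two different conditions occur, at `s`
and `s'`, say. On the differences of the points of `U` (`a_s = 0`, or `γ_s = 0`, or `a_s = γ_s`, for the
three conditions) the form is `Q(a, c) = ∑ a_s γ_s + (∑ a) (∑ γ)`. Take the differences `w, w'` with the only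
nonzero coordinates at `s`, `s'`: for the condition `a_s = 0`: `γ_s = 1`; for `γ_s = 0`: `a_s = 1`; for the
third: `a_s = γ_s = 1`. The polar form of `w` and `w'` is `(∑ a)(∑ γ') + (∑ a')(∑ γ)`, which is `1` in all three
cases, a contradiction (`Q(w + w')`, `Q(w)`, `Q(w')` are all zero). So the condition is the same for all
`s`; `γ = 0` gives `c = 0`.

`PAR` (about 100 lines). Parity of the rank. For `m` even the system `Sol` with `t = 1` over `F_2` is
equivalent to `M a = 0`, where `(M a)_xb = E_xb + ∑_b' E_xb'` (`E_xb` is the left side in `Sol`), which is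
`∑_y A_xy ((a_xb - a_yb) + ∑_b' (a_xb' - a_yb')) + p_xb a_xb`. `M` is a symmetric matrix with the diagonal
`p`, and `M 1 = p` (`1` the all-ones vector). In general: let `M` be a symmetric matrix over `F_2` with
diagonal `δ` and `M w = δ`. Then `rank M = w^T δ` modulo `2`. Proof. `M' = M + δ δ^T` is symmetric with
zero diagonal (alternating), so its rank is even. If `w^T M w = w^T δ = 0` then
`M' = M (1 + w w^T M)` with `1 + w w^T M` invertible (its square is `1`), so `rank M = rank M'` is even. If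
`w^T δ = 1` then `ker M' = ker M ⊕ F w`: `M' w = δ + δ (w^T δ)= 0`, `M w = δ ≠ 0`, and `M' u = 0` gives
`M u = (δ^T u) M w`. So `rank M = rank M' + 1` is odd. As `r m` is even the dimension of the kernel has
the parity of the rank, that is, of `∑ p_xs`.

`MO2` (about 200 lines, from `CL2` and `PAR`). As in `MO`: the number `N` of the pairs `(a, x)` with `a` a
solution for `x` satisfies `N ≤ |X| (3 + K (1 - 2 ^ (-m)) ^ r)` (three maximal sets of `2 ^ m` elements). Let
`s(x)` be the dimension of the space of solutions. By `PAR` it has the parity of `∑ p`. If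
some `a_xs = 0` then `Sol` does not depend on `p_xs`, so `∑_x (-1) ^ (∑ p)` over the `x` for which `a` is a
solution is zero; for `a = (1, ..., 1)` it is the number of the `B`, `|X| 2 ^ (-r m)` (`a` is a solution iff
`p = 0`). So `∑_x 2 ^ s(x) (-1) ^ s(x) = |X| 2 ^ (-r m)`, and the sums of `2 ^ s(x)` over the `x` with `s(x)`
even and odd are at most `|X| (3 / 2 + δ_r)`, `δ_r → 0`; and half of the `x` have `s(x)` even. (a) If `n0` is
the number of the `x` with `s = 0`: `n0 + 4 (|X| / 2 - n0) ≤ |X| (3 / 2 + δ_r)`, so `n0 ≥ |X| (1/6 - δ_r / 3)`.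
(b) If `n1` is the number with `s = 1`: `2 n1 + 8 (|X| / 2 - n1) ≤ |X| (3 / 2 + δ_r)`, so
`n1 ≥ |X| (5/12 - δ_r / 6)`, `n0 + n1 ≥ |X| (7/12 - δ_r / 2)`. (c) `s ≤ (2/3) (2 ^ s - 1)` for even `s`,
`s ≤ 1 + (2 ^ s - 2) / 3` for odd `s`, so `∑ s(x) ≤ |X| (4/3 + δ_r)`.

`MW` (about 250 lines). The Mordell-Weil theorem over `k(t)`, `k` finite, for curves with full level two,
from the finiteness of `E / 2 E`. Way: an instance of `Height.AdmissibleAbsValues (RatFunc k)` (no
archimedean absolute values; `|f|_P = q ^ (-deg P v_P(f))`, `|f|_∞ = q ^ (deg f)`; the product formula is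
`deg f = ∑ v_P(f) deg P`), the Northcott property (the height of `f = N / D` in lowest terms is
`q ^ max(deg N, deg D)`), then the parallelogram law as in `Pool.Agent.H437R2.Man.MWPar` (which is written
for number fields but uses only the general theory of heights), and `AddCommGroup.fg_of_descent'` of
Mathlib (`Mathlib/GroupTheory/Descent.lean`). Any other way is fine.
-/

set_option autoImplicit false

namespace Pool.Agent.D0H99.RM

open Finset

/-- CL2: the large isotropic sets in the cone, for `ℓ = 2` -/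
def S_CL2 : Prop := ∀ m : ℕ, Even m → ∀ I : Finset (V 2 m × V 2 m), (∀ v ∈ I, Zc v) →
  (∀ v ∈ I, ∀ w ∈ I, Iso v w) →
    I.card < 2 ^ m ∨ (∀ v ∈ I, v.1 = 0) ∨ (∀ v ∈ I, v.2 = 0) ∨
      ∀ v ∈ I, ∀ s, v.1 s + (v.2 s + ∑ b, v.2 b) = 1

/-- the number of the solutions -/
noncomputable def nsol {m r : ℕ} (x : X 2 m r) : ℕ :=
  {a : Fin r → V 2 m | Sol (fun _ => 1) (sy x.1) x.2 a}.ncard

/-- PAR: the parity of the dimension of the space of the solutions -/
def S_PAR : Prop := ∀ m r : ℕ, Even m → ∀ x : X 2 m r,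
  ∃ d : ℕ, nsol x = 2 ^ d ∧ ((d : ℕ) : ZMod 2) = ∑ i, ∑ s, x.2 i s

/-- MO2: the distribution of the number of the solutions -/
def S_MO2 : Prop := ∀ m : ℕ, Even m → 2 ≤ m → ∀ ε : ℝ, 0 < ε → ∃ r0 : ℕ, ∀ r : ℕ, r0 ≤ r →
  (1 / 6 - ε) * (Nat.card (X 2 m r) : ℝ) ≤ ({x : X 2 m r | nsol x = 1}.ncard : ℝ) ∧
  (7 / 12 - ε) * (Nat.card (X 2 m r) : ℝ) ≤ ({x : X 2 m r | nsol x ≤ 2}.ncard : ℝ) ∧
  ((∑ x : X 2 m r, Nat.log 2 (nsol x) : ℕ) : ℝ) ≤ (4 / 3 + ε) * (Nat.card (X 2 m r) : ℝ)

/-- the curve `y² = (x - e1) (x - e2) (x - e3)` -/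
def crv {K : Type} [Field K] (e1 e2 e3 : K) : WeierstrassCurve K :=
  ⟨0, -(e1 + e2 + e3), 0, e1 * e2 + e1 * e3 + e2 * e3, -(e1 * e2 * e3)⟩

open scoped Classical in
/-- MW: the theorem of Mordell-Weil over `k(t)` -/
def S_MW : Prop := ∀ (k : Type) [Field k] [Finite k], (2 : k) ≠ 0 →
  ∀ e1 e2 e3 : RatFunc k, e1 ≠ e2 → e1 ≠ e3 → e2 ≠ e3 →
    (nsmulAddMonoidHom (α := (crv e1 e2 e3).toAffine.Point) 2).range.FiniteIndex →
      AddGroup.FG (crv e1 e2 e3).toAffine.Point

end Pool.Agent.D0H99.RM
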