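import Pool.Agent.D0H99.RM.Dn

/-!
The equidistribution of the symbols between the members of a random tuple of distinct primes.
-/

set_option autoImplicit false
set_option linter.all false

open Polynomial IsDedekindDomain Filter

namespace Pool.Agent.D0H99.RM

open Finset
open Pool.Agent.Y164.SZ
open Pool.Agent.Y164.PS (Fam Pr mem_Pr card_Pr_ge)

section
variable {k : Type} [Field k] [Fintype k] [DecidableEq k]

open Classical in
/-- the tuples of distinct primes -/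
noncomputable def Dist (k : Type) [Field k] [Fintype k] [DecidableEq k] (r n : ℕ) :
    Finset (Fin r → k[X]) :=
  (Fintype.piFinset fun _ : Fin r => Pr k n).filter fun d => Function.Injective d

variable {ℓ : ℕ} [hℓ : Fact ℓ.Prime] {m : ℕ}

theorem sy_symm {r : ℕ} (B : ∀ i : Fin r, Fin (i : ℕ) → ZMod ℓ) (i j : Fin r) :
    sy B i j = sy B j i := by
  unfold sy
  rcases lt_trichotomy (i : ℕ) j with h | h | h
  · rw [dif_neg (by omega), dif_pos h, dif_pos h]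
  · rw [dif_neg (by omega), dif_neg (by omega), dif_neg (by omega), dif_neg (by omega)]
  · rw [dif_pos h, dif_neg (by omega), dif_pos h]

theorem pt_disj (P : Fin m → k[X]) {r n : ℕ} {x y : X ℓ m r} (hxy : x ≠ y) :
    Disjoint (Pt ℓ P n (sy x.1) x.2) (Pt ℓ P n (sy y.1) y.2) := by
  classical
  rw [Finset.disjoint_left]
  intro d hd hd'
  apply hxy
  rw [Pt, mem_filter] at hd hd'
  obtain ⟨-, -, h1, h3⟩ := hd
  obtain ⟨-, -, h1', h3'⟩ := hd'
  refine Prod.ext ?_ ?_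
  · funext i j
    have hji : (j : ℕ) < i := j.2
    have hjr : (j : ℕ) < r := hji.trans i.2
    have h4 := h3 i ⟨j, hjr⟩ (fun h => by
      have := congrArg Fin.val h
      simp only at this
      omega)
    have h5 := h3' i ⟨j, hjr⟩ (fun h => by
      have := congrArg Fin.val h
      simp only at this
      omega)
    have h6 : sy x.1 i ⟨j, hjr⟩ = x.1 i j := by
      unfold sy
      rw [dif_pos hji]
    have h7 : sy y.1 i ⟨j, hjr⟩ = y.1 i j := by
      unfold sy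
      rw [dif_pos hji]
    rw [← h6, ← h7, ← h4, ← h5]
  · funext i s
    rw [← h1 i s, ← h1' i s]

theorem dist_eq (S : SYM0 ℓ k) (P : Fin m → k[X]) (r n : ℕ) [Fintype (X ℓ m r)]
    [DecidableEq (Fin r → k[X])] :
    Dist k r n = (univ : Finset (X ℓ m r)).biUnion fun x => Pt ℓ P n (sy x.1) x.2 := by
  classical
  ext d
  rw [mem_biUnion, Dist, mem_filter]
  constructor
  · rintro ⟨h1, h2⟩
    refine ⟨(fun i j => L ℓ (d ⟨j, j.2.trans i.2⟩) (d i), fun i s => L ℓ (P s) (d i)), mem_univ _,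
      ?_⟩
    rw [Pt, mem_filter]
    refine ⟨h1, h2, fun i s => rfl, fun i j hij => ?_⟩
    have hij' : (i : ℕ) ≠ j := fun h => hij (Fin.ext h)
    unfold sy
    rcases lt_or_gt_of_ne hij' with h | h
    · rw [dif_neg (by omega), dif_pos h]
      exact S.L_comm _ _
    · rw [dif_pos h]
  · rintro ⟨x, -, hx⟩
    rw [Pt, mem_filter] at hx
    exact ⟨hx.1, hx.2.1⟩

theorem dist_sum (S : SYM0 ℓ k) (P : Fin m → k[X]) (r n : ℕ) [Fintype (X ℓ m r)]
    (F : (Fin r → k[X]) → ℝ) :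
    ∑ d ∈ Dist k r n, F d = ∑ x : X ℓ m r, ∑ d ∈ Pt ℓ P n (sy x.1) x.2, F d := by
  classical
  rw [dist_eq S P r n, sum_biUnion]
  intro x _ y _ hxy
  exact pt_disj P hxy

theorem dist_card (S : SYM0 ℓ k) (P : Fin m → k[X]) (r n : ℕ) [Fintype (X ℓ m r)] :
    ((Dist k r n).card : ℝ) = ∑ x : X ℓ m r, ((Pt ℓ P n (sy x.1) x.2).card : ℝ) := by
  have h := dist_sum S P r n (fun _ => (1 : ℝ))
  simp only [sum_const, nsmul_eq_mul, mul_one] at h
  exact h

theorem dist_le (r n : ℕ) : ((Dist k r n).card : ℝ) ≤ ((Pr k n).card : ℝ) ^ r := by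
  classical
  have h : (Dist k r n).card ≤ (Pr k n).card ^ r := by
    unfold Dist
    refine (card_filter_le _ _).trans ?_
    rw [Fintype.card_piFinset, prod_const, card_univ, Fintype.card_fin]
  exact_mod_cast h

theorem sandwich (S : SYM ℓ k) (hk : ringChar k ≠ 2) (m : ℕ) {N : ℕ} (hN : ¬ ℓ ∣ N) (r : ℕ)
    {η : ℝ} (hη : 0 < η) : ∀ᶠ n : ℕ in atTop, ℓ ∣ n → ∀ P : Fin m → k[X], (∀ a, (P a).Monic) →
      (∀ a, Irreducible (P a)) → Function.Injective P → (∀ a, (P a).natDegree = N) →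
      ∀ x : X ℓ m r,
      (cst ℓ m r - η) * ((Dist k r n).card : ℝ) ≤ ((Pt ℓ P n (sy x.1) x.2).card : ℝ) ∧
      ((Pt ℓ P n (sy x.1) x.2).card : ℝ) ≤
        (cst ℓ m r + Nat.card (X ℓ m r) * η) * ((Dist k r n).card : ℝ) := by
  classical
  filter_upwards [pt_density S hk m hN r η hη] with n hn hln P hPm hPi hPinj hPd
  have h1 : ∀ x : X ℓ m r,
      (cst ℓ m r - η) * ((Dist k r n).card : ℝ) ≤ ((Pt ℓ P n (sy x.1) x.2).card : ℝ) := by
    intro x
    have h2 := hn hln P hPm hPi hPinj hPd (sy x.1) x.2 (sy_symm x.1)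
    have h3 : (0 : ℝ) ≤ ((Dist k r n).card : ℝ) := Nat.cast_nonneg _
    rcases le_total (cst ℓ m r - η) 0 with h | h
    · exact (mul_nonpos_of_nonpos_of_nonneg h h3).trans (Nat.cast_nonneg _)
    · exact (mul_le_mul_of_nonneg_left (dist_le r n) h).trans h2
  intro x
  refine ⟨h1 x, ?_⟩
  have h2 := dist_card S.toSYM0 P r n
  rw [← add_sum_erase univ _ (mem_univ x)] at h2
  have h3 : ((univ.erase x).card : ℝ) * ((cst ℓ m r - η) * ((Dist k r n).card : ℝ)) ≤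
      ∑ y ∈ univ.erase x, ((Pt ℓ P n (sy y.1) y.2).card : ℝ) := by
    rw [← nsmul_eq_mul, ← sum_const]
    exact sum_le_sum fun y _ => h1 y
  have h4 : ((univ.erase x).card : ℝ) = (Nat.card (X ℓ m r) : ℝ) - 1 := by
    rw [card_erase_of_mem (mem_univ _), card_univ, Nat.card_eq_fintype_card,
      Nat.cast_sub Fintype.card_pos, Nat.cast_one]
  rw [h4] at h3
  have hX : (1 : ℝ) ≤ (Nat.card (X ℓ m r) : ℝ) := by exact_mod_cast card_X_pos (ℓ := ℓ) m r
  have h5 : (Nat.card (X ℓ m r) : ℝ) * cst ℓ m r = 1 := by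
    unfold cst
    field_simp
  have h6 : (0 : ℝ) ≤ ((Dist k r n).card : ℝ) := Nat.cast_nonneg _
  have h7 : ((Nat.card (X ℓ m r) : ℝ) - 1) * ((cst ℓ m r - η) * ((Dist k r n).card : ℝ)) =
      (1 - cst ℓ m r - Nat.card (X ℓ m r) * η + η) * ((Dist k r n).card : ℝ) := by
    linear_combination ((Dist k r n).card : ℝ) * h5
  rw [h7] at h3
  have h8 : 0 ≤ η * ((Dist k r n).card : ℝ) := mul_nonneg hη.le h6
  nlinarith

/-- averages over the tuples of distinct primes, upper bounds -/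
theorem av_le (S : SYM ℓ k) (hk : ringChar k ≠ 2) (m : ℕ) {N : ℕ} (hN : ¬ ℓ ∣ N) (r : ℕ)
    {ρ ε : ℝ} (hε : 0 < ε) (hρ : 0 ≤ ρ) [Fintype (X ℓ m r)] (F : X ℓ m r → ℕ)
    (hF : ((∑ x : X ℓ m r, F x : ℕ) : ℝ) ≤ (ρ + ε / 2) * (Nat.card (X ℓ m r) : ℝ)) :
    ∀ᶠ n : ℕ in atTop, ℓ ∣ n → ∀ P : Fin m → k[X], (∀ a, (P a).Monic) →
      (∀ a, Irreducible (P a)) → Function.Injective P → (∀ a, (P a).natDegree = N) →
      ∀ R : (Fin r → k[X]) → ℕ,
      (∀ x : X ℓ m r, ∀ d ∈ Pt ℓ P n (sy x.1) x.2, R d ≤ F x) →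
      ∑ d ∈ Dist k r n, (R d : ℝ) ≤ (ρ + ε) * ((Dist k r n).card : ℝ) := by
  have hX : (1 : ℝ) ≤ (Nat.card (X ℓ m r) : ℝ) := by exact_mod_cast card_X_pos (ℓ := ℓ) m r
  obtain ⟨Xc, hXc⟩ : ∃ Xc : ℝ, Xc = (Nat.card (X ℓ m r) : ℝ) := ⟨_, rfl⟩
  rw [← hXc] at hX hF
  obtain ⟨η, hη⟩ : ∃ η : ℝ, η = ε / 2 / (ρ + ε / 2) / Xc ^ 2 := ⟨_, rfl⟩
  have hη0 : 0 < η := by rw [hη]; positivity
  filter_upwards [sandwich S hk m hN r hη0] with n hn hln P hPm hPi hPinj hPd R hR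
  have hn1 := hn hln P hPm hPi hPinj hPd
  rw [dist_sum S.toSYM0 P r n]
  have h6 : (0 : ℝ) ≤ ((Dist k r n).card : ℝ) := Nat.cast_nonneg _
  have h1 : ∀ x : X ℓ m r, ∑ d ∈ Pt ℓ P n (sy x.1) x.2, (R d : ℝ) ≤
      (F x : ℝ) * ((cst ℓ m r + Xc * η) * ((Dist k r n).card : ℝ)) := by
    intro x
    have h2 : ∑ d ∈ Pt ℓ P n (sy x.1) x.2, (R d : ℝ) ≤
        ∑ d ∈ Pt ℓ P n (sy x.1) x.2, (F x : ℝ) :=
      sum_le_sum fun d hd => by exact_mod_cast hR x d hd
    rw [sum_const, nsmul_eq_mul, mul_comm] at h2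
    refine h2.trans (mul_le_mul_of_nonneg_left ?_ (Nat.cast_nonneg _))
    rw [hXc]
    exact (hn1 x).2
  refine (sum_le_sum fun x _ => h1 x).trans ?_
  rw [← sum_mul]
  have h2 : (∑ x : X ℓ m r, (F x : ℝ)) ≤ (ρ + ε / 2) * Xc := by
    exact_mod_cast hF
  have h3 : 0 ≤ (cst ℓ m r + Xc * η) * ((Dist k r n).card : ℝ) := by
    have := (cst_le (ℓ := ℓ) m r).1
    positivity
  refine (mul_le_mul_of_nonneg_right h2 h3).trans ?_
  have h5 : Xc * cst ℓ m r = 1 := by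
    rw [hXc]
    unfold cst
    have : (Nat.card (X ℓ m r) : ℝ) ≠ 0 := by rw [← hXc]; positivity
    field_simp
  have h7 : (ρ + ε / 2) * Xc * ((cst ℓ m r + Xc * η) * ((Dist k r n).card : ℝ)) =
      (ρ + ε / 2) * (1 + Xc ^ 2 * η) * ((Dist k r n).card : ℝ) := by
    linear_combination ((ρ + ε / 2) * ((Dist k r n).card : ℝ)) * h5
  rw [h7]
  apply mul_le_mul_of_nonneg_right _ h6
  have h8 : (ρ + ε / 2) * (Xc ^ 2 * η) = ε / 2 := by
    rw [hη]
    have h9 : ρ + ε / 2 ≠ 0 := by positivity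
    field_simp
  linarith

/-- proportions over the tuples of distinct primes, lower bounds -/
theorem le_prop (S : SYM ℓ k) (hk : ringChar k ≠ 2) (m : ℕ) {N : ℕ} (hN : ¬ ℓ ∣ N) (r : ℕ)
    {ρ ε : ℝ} (hε : 0 < ε) (G : Set (X ℓ m r))
    (hG : (ρ - ε / 2) * (Nat.card (X ℓ m r) : ℝ) ≤ (G.ncard : ℝ)) :
    ∀ᶠ n : ℕ in atTop, ℓ ∣ n → ∀ P : Fin m → k[X], (∀ a, (P a).Monic) →
      (∀ a, Irreducible (P a)) → Function.Injective P → (∀ a, (P a).natDegree = N) →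
      ∀ R : Set (Fin r → k[X]), (∀ x ∈ G, ∀ d ∈ Pt ℓ P n (sy x.1) x.2, d ∈ R) →
      (ρ - ε) * ((Dist k r n).card : ℝ) ≤ ((((Dist k r n : Finset (Fin r → k[X])) :
        Set (Fin r → k[X])) ∩ R).ncard : ℝ) := by
  classical
  have hX : (1 : ℝ) ≤ (Nat.card (X ℓ m r) : ℝ) := by exact_mod_cast card_X_pos (ℓ := ℓ) m r
  obtain ⟨η, hη⟩ : ∃ η : ℝ, η = ε / 2 / (Nat.card (X ℓ m r) : ℝ) := ⟨_, rfl⟩
  have hη0 : 0 < η := by rw [hη]; positivity
  obtain ⟨G', hG'⟩ : ∃ G' : Finset (X ℓ m r), (G' : Set (X ℓ m r)) = G :=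
    ⟨(Set.toFinite G).toFinset, Set.Finite.coe_toFinset _⟩
  rw [← hG', Set.ncard_coe_finset] at hG
  filter_upwards [sandwich S hk m hN r hη0] with n hn hln P hPm hPi hPinj hPd R hR
  have hn1 := hn hln P hPm hPi hPinj hPd
  have h6 : (0 : ℝ) ≤ ((Dist k r n).card : ℝ) := Nat.cast_nonneg _
  have hUb : (G'.card : ℝ) * ((cst ℓ m r - η) * ((Dist k r n).card : ℝ)) ≤
      ((G'.biUnion fun x => Pt ℓ P n (sy x.1) x.2).card : ℝ) := by
    rw [card_biUnion (fun x _ y _ hxy => pt_disj P hxy), Nat.cast_sum, ← nsmul_eq_mul,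
      ← sum_const]
    exact sum_le_sum fun x _ => (hn1 x).1
  have hsub : (((G'.biUnion fun x => Pt ℓ P n (sy x.1) x.2) : Finset (Fin r → k[X])) :
      Set (Fin r → k[X])) ⊆
      (((Dist k r n : Finset (Fin r → k[X])) : Set (Fin r → k[X])) ∩ R) := by
    intro d hd
    rw [mem_coe, mem_biUnion] at hd
    obtain ⟨x, hx, hd⟩ := hd
    refine ⟨?_, hR x (by rw [← hG']; exact hx) d hd⟩
    rw [mem_coe, Dist, mem_filter]
    rw [Pt, mem_filter] at hd
    exact ⟨hd.1, hd.2.1⟩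
  have h7 := Set.ncard_le_ncard hsub ((Dist k r n).finite_toSet.inter_of_left R)
  rw [Set.ncard_coe_finset] at h7
  have h8 : ((G'.biUnion fun x => Pt ℓ P n (sy x.1) x.2).card : ℝ) ≤
      ((((Dist k r n : Finset (Fin r → k[X])) : Set (Fin r → k[X])) ∩ R).ncard : ℝ) := by
    exact_mod_cast h7
  refine le_trans ?_ (hUb.trans h8)
  rw [← mul_assoc]
  apply mul_le_mul_of_nonneg_right _ h6
  have hGX : (G'.card : ℝ) ≤ Nat.card (X ℓ m r) := by
    rw [Nat.card_eq_fintype_card]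
    exact_mod_cast card_le_univ G'
  have h5 : ρ - ε / 2 ≤ G'.card * cst ℓ m r := by
    unfold cst
    rw [mul_one_div, le_div_iff₀ (by linarith)]
    exact hG
  have h9 : (G'.card : ℝ) * η ≤ ε / 2 := by
    calc (G'.card : ℝ) * η ≤ Nat.card (X ℓ m r) * η :=
          mul_le_mul_of_nonneg_right hGX hη0.le
      _ = ε / 2 := by rw [hη]; field_simp
  have h10 : (G'.card : ℝ) * (cst ℓ m r - η) = G'.card * cst ℓ m r - G'.card * η := by ring
  rw [h10]
  linarith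

end

end Pool.Agent.D0H99.RM
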