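import Pool.Agent.D0H99.RM.Rp

/-!
The criterion for twists of a pencil by products of primes: the Selmer group is the kernel of a
matrix of symbols.
-/

set_option autoImplicit false
set_option linter.all false

open Polynomial IsDedekindDomain

namespace Pool.Agent.D0H99.RM

open Finset
open Pool.Agent.Y164.SZ
open Pool.Agent.Y713.SE (hp Pw mem_hp eq_hp val_hp_self not_pw_exp val_eq_one_iff val_C
  exists_gen pw_exp_pow)
open Pool.Agent.Y713.SE.Dat (au)
open Pool.Agent.Y164.PS (Fam el el' el_eq el'_not_dvd)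
open Pool.Agent.D0H99.FT (br nu cs val_el val_el_one adj)

namespace Dtb

variable {ℓ : ℕ} [hℓ : Fact ℓ.Prime] {k : Type} [Field k] [Fintype k] [DecidableEq k] {m : ℕ}
  {c : Fin m → k} {g : k[X]} {P : Fin m → k[X]} {ι : Type} [Fintype ι] {T : ι → k[X]} {t : ι → ℕ}
  (H : Dtb ℓ c g P T t)

include H

section val
variable {K : Type} [Field K] [Algebra k[X] K] [IsFractionRing k[X] K]

theorem val_ell (v : HeightOneSpectrum k[X]) : v.valuation K ((ℓ : ℕ) : K) = 1 := by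
  have h3 : ((ℓ : ℕ) : K) = algebraMap k[X] K (C ((ℓ : ℕ) : k)) := by
    rw [C_eq_natCast, map_natCast]
  rw [h3]
  exact val_C H.hlk

theorem notMem {x y : ι ⊕ Fin m} (h : y ≠ x) :
    Sum.elim T P y ∉ (hp (Sum.elim T P x) (H.fam.irr x)).asIdeal := by
  rw [mem_hp]
  intro hd
  have h1 := eq_of_monic_of_associated (H.fam.mon x) (H.fam.mon y)
    (((H.fam.irr x).associated_of_dvd (H.fam.irr y)) hd)
  exact h (H.fam.inj h1).symm

theorem val_diff (x : ι ⊕ Fin m) {i j : Fin (m + 1)} (h : i ≠ j) :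
    (hp (Sum.elim T P x) (H.fam.irr x)).valuation K
      (algebraMap k[X] K (br g c i) - algebraMap k[X] K (br g c j)) =
      (WithZero.exp (-1 : ℤ)) ^ (Sum.elim (fun _ => 0) (nu i j) x : ℕ) := by
  rw [← map_sub, H.diff h]
  exact val_el H.fam (H.lc_diff h) _ x

theorem val_diff_one {v : HeightOneSpectrum k[X]} (hv : ∀ x, Sum.elim T P x ∉ v.asIdeal)
    {i j : Fin (m + 1)} (h : i ≠ j) :
    v.valuation K (algebraMap k[X] K (br g c i) - algebraMap k[X] K (br g c j)) = 1 := by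
  rw [← map_sub, H.diff h]
  exact val_el_one (H.lc_diff h) _ hv

omit H in
theorem el_twist (r : k) : el (Sum.elim T P) r (Sum.elim t (fun _ => 0)) =
    C r * ∏ x, T x ^ t x := by
  rw [el, Fintype.prod_sum_type]
  simp

theorem val_del {r : k} (hr : r ≠ 0) (x : ι ⊕ Fin m) :
    (hp (Sum.elim T P x) (H.fam.irr x)).valuation K
      (algebraMap k[X] K (C r * ∏ x, T x ^ t x)) =
      (WithZero.exp (-1 : ℤ)) ^ (Sum.elim t (fun _ => 0) x : ℕ) := by
  rw [← el_twist (P := P) r]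
  exact val_el H.fam hr _ x

omit H in
theorem val_del_one {v : HeightOneSpectrum k[X]} {r : k} (hr : r ≠ 0)
    (hv : ∀ x, Sum.elim T P x ∉ v.asIdeal) :
    v.valuation K (algebraMap k[X] K (C r * ∏ x, T x ^ t x)) = 1 := by
  rw [← el_twist (P := P) r]
  exact val_el_one hr _ hv

end val

theorem L_self (x : ι ⊕ Fin m) : L ℓ (Sum.elim T P x) (Sum.elim T P x) = 0 := by
  apply H.S.L_nc _ _ (H.fam.irr x).ne_zero
  intro h
  exact (H.fam.irr x).not_isUnit (h.isUnit_of_dvd' dvd_rfl dvd_rfl)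

theorem crit [Nonempty ι]
    (hker : ∀ a : ι → Fin m → ZMod ℓ, (∀ x b, ∑ y, (t y : ZMod ℓ) * L ℓ (T y) (T x) *
      (a x b - a y b) + ∑ s, a x s * L ℓ (P s) (T x) + a x b * L ℓ (P b) (T x) = 0) → a = 0)
    {K : Type} [Field K] [Algebra k[X] K] [IsFractionRing k[X] K]
    (D0 : Pool.Agent.Y713.SE.Dat ℓ (m + 1) K) {r0 : k} (hr0 : r0 ≠ 0)
    (hδ : D0.δ = algebraMap k[X] K (C r0 * ∏ x, T x ^ t x))
    (he : ∀ i, D0.e i = algebraMap k[X] K (br g c i))
    {E : Type} [Field E] [Algebra K E] [IsGalois K E] [IsSepClosed E] {p : ℕ} [ExpChar E p]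
    (Ω : HeightOneSpectrum k[X] → Type) [∀ v, Field (Ω v)]
    [∀ v, Algebra (v.adicCompletion K) (Ω v)] [∀ v, Algebra K (Ω v)]
    [∀ v, IsScalarTower K (v.adicCompletion K) (Ω v)] [∀ v, IsSepClosed (Ω v)]
    [∀ v, IsGalois (v.adicCompletion K) (Ω v)] [∀ v, ExpChar (Ω v) p]
    (χ : (E ≃ₐ[K] E) → Fin (m + 1) → ℕ)
    (hc : D0.Coc (fun τ => Y713.SE.cl ((D0.base E).PT (χ τ))))
    (ht : ∀ v, D0.Triv (v.adicCompletion K) (Ω v) (fun τ => Y713.SE.cl ((D0.base E).PT (χ τ)))) :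
    D0.Cob (fun τ => Y713.SE.cl ((D0.base E).PT (χ τ))) := by
  classical
  obtain ⟨kd⟩ := D0.exists_KD hc
  have hm := H.hm
  have hl' : ℓ ≠ 2 ∨ IsSquare (-1 : K) := by
    by_cases h : ℓ = 2
    · right
      obtain ⟨z, hz⟩ := H.hl
      refine ⟨algebraMap k[X] K (C z), ?_⟩
      rw [← map_mul, ← C_mul, ← pow_two]
      rw [h] at hz
      rw [hz, C_neg, map_neg, C_1, map_one]
    · exact Or.inl h
  obtain ⟨i0⟩ : Nonempty (Fin (m + 1)) := ⟨0⟩
  obtain ⟨rA, rB, rC, rD⟩ := Pool.Agent.Y547.SZ.Rep.t ℓ k K (ι ⊕ Fin m) (Sum.elim T P) H.fam H.S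
  obtain ⟨kd_ne, -, hmm⟩ := Pool.Agent.Y547.SZ.t_kda ℓ (m + 1) K E D0 χ kd
  -- the exponent
  obtain ⟨e0, he0⟩ : ∃ e0 : ℕ, 1 + ((m + 1 : ℕ) : ZMod ℓ) * (e0 : ZMod ℓ) = 0 := by
    refine ⟨(-((m + 1 : ℕ) : ZMod ℓ)⁻¹).val, ?_⟩
    rw [ZMod.natCast_zmod_val, mul_neg, mul_inv_cancel₀ (cast_ne H.hn), add_neg_cancel]
  -- representations
  have hrep0 : ∀ i, ∃ c u, IsRep ℓ (Sum.elim T P) (kd.d i i0) c u := by
    intro i
    refine rD _ (kd_ne _ _) ?_
    intro v hv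
    refine D0.good_place (p := p) ?_ ?_ (H.val_ell v) (ht v) kd i i0
    · intro i j hij
      rw [he, he]
      exact H.val_diff_one hv hij
    · rw [hδ]
      exact val_del_one hr0 hv
  choose c0 u0 hcu using hrep0
  obtain ⟨mi, hmi⟩ : ∃ mi : Fin (m + 1) → K, mi = mm D0 e0 kd i0 := ⟨_, rfl⟩
  obtain ⟨hmi0', hmir'⟩ := hmm e0 i0
  have hmi0 : ∀ i, mi i ≠ 0 := fun i => by rw [hmi]; exact hmi0' i
  have hmir : ∀ i j, ∃ z : K, z ≠ 0 ∧ mi i = z ^ ℓ * (kd.d i j * mi j) := by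
    intro i j
    rw [hmi]
    exact hmir' i j
  obtain ⟨cc, hcc⟩ : ∃ cc : Fin (m + 1) → ZMod ℓ,
      cc = fun i => c0 i + (e0 : ZMod ℓ) * ∑ j, c0 j := ⟨_, rfl⟩
  obtain ⟨U, hU⟩ : ∃ U : Fin (m + 1) → (ι ⊕ Fin m) → ZMod ℓ,
      U = fun i x => u0 i x + (e0 : ZMod ℓ) * ∑ j, u0 j x := ⟨_, rfl⟩
  have hrep : ∀ i, IsRep ℓ (Sum.elim T P) (mi i) (cc i) (U i) := by
    intro i
    rw [hmi, hcc, hU]
    exact (hcu i).mul H.S ((IsRep.prod H.S univ (fun j _ => hcu j)).pow H.S e0)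
  have hsum : ∀ f : Fin (m + 1) → ZMod ℓ, ∑ i, (f i + (e0 : ZMod ℓ) * ∑ j, f j) = 0 := by
    intro f
    rw [sum_add_distrib, sum_const, card_univ, Fintype.card_fin, nsmul_eq_mul]
    linear_combination (∑ j, f j) * he0
  have hsc : ∑ i, cc i = 0 := by rw [hcc]; exact hsum c0
  have hsU : ∀ x, ∑ i, U i x = 0 := by
    intro x
    rw [hU]
    exact hsum (fun i => u0 i x)
  -- adjustments
  have hadj : ∀ mv : Fin (m + 1) → ℕ, ∃ (Q : ClassGroup (D0.base E).A)
      (χ' : (E ≃ₐ[K] E) → Fin (m + 1) → ℕ)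
      (kd' : D0.KD χ'), Y713.SE.cl ((D0.base E).PT mv) * (D0.base E).sC Q = Q ∧
      (∀ τ, Y713.SE.cl ((D0.base E).PT (χ' τ)) =
        Y713.SE.cl ((D0.base E).PT (χ τ)) / (D0.mC (au τ) Q / Q)) ∧
      ∀ i j, ∃ z : K, z ≠ 0 ∧
        mi i * Tm D0 mv i = z ^ ℓ * (kd'.d i j * (mi j * Tm D0 mv j)) := by
    intro mv
    obtain ⟨Q, χ', hQ, hχ', hc'⟩ := D0.exists_adj (p := p) mv hc
    obtain ⟨kd'⟩ := D0.exists_KD hc'
    refine ⟨Q, χ', kd', hQ, hχ', fun i j => ?_⟩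
    obtain ⟨x, hx, e1⟩ := adj ℓ (m + 1) K D0 E hl' mv χ χ' kd kd' Q hQ hχ' i j
    obtain ⟨z, hz, e2⟩ := hmir i j
    refine ⟨z / x, div_ne_zero hz hx, ?_⟩
    have hxl : x ^ ℓ ≠ 0 := pow_ne_zero _ hx
    have e3 : mi i * Tm D0 mv i * x ^ ℓ = z ^ ℓ * (kd'.d i j * (mi j * Tm D0 mv j)) := by
      have e4 : mi i * Tm D0 mv i * x ^ ℓ = z ^ ℓ * (kd.d i j * mi j) * Tm D0 mv i * x ^ ℓ :=
        congrArg (fun y => y * Tm D0 mv i * x ^ ℓ) e2
      rw [e4]
      linear_combination (-(z ^ ℓ * mi j)) * e1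
    rw [div_pow, div_mul_eq_mul_div, eq_div_iff hxl]
    exact e3
  -- the exponents of the adjusted classes
  obtain ⟨Ex, hEx⟩ : ∃ Ex : (Fin (m + 1) → ℕ) → Fin (m + 1) → (ι ⊕ Fin m) → ZMod ℓ,
      Ex = fun mv i => Sum.elim (fun x => U i (Sum.inl x) - (mv i : ZMod ℓ) * t x)
        (fun s => U i (Sum.inr s) - tf ℓ 0 s.succ i * ((mv 0 : ZMod ℓ) - mv s.succ)) := ⟨_, rfl⟩
  obtain ⟨Kc, hKc⟩ : ∃ Kc : (Fin (m + 1) → ℕ) → Fin (m + 1) → ZMod ℓ,
      Kc = fun mv i => cc i + (∑ j, ((mv j : ZMod ℓ) - mv i) * cs ℓ g c i j -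
        (mv i : ZMod ℓ) * ch ℓ r0) := ⟨_, rfl⟩
  have hrT : ∀ (mv : Fin (m + 1) → ℕ) i, IsRep ℓ (Sum.elim T P) (mi i * Tm D0 mv i)
      (Kc mv i) (Ex mv i) := by
    intro mv i
    refine ((hrep i).mul H.S (H.rep_Tm D0 hr0 hδ he mv i)).congr ?_ ?_
    · rw [hKc]
    · rw [hEx]
      rintro (x | s)
      · simp only [Sum.elim_inl]; ring
      · simp only [Sum.elim_inr]; ring
  -- local conditions
  have hval : ∀ (mv : Fin (m + 1) → ℕ) (i j : Fin (m + 1)) (y : ι ⊕ Fin m) (z d : K), z ≠ 0 →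
      mi i * Tm D0 mv i = z ^ ℓ * (d * (mi j * Tm D0 mv j)) →
      IsRep ℓ (Sum.elim T P) (z ^ ℓ * d) (Kc mv i + - Kc mv j)
        (fun y => Ex mv i y + - Ex mv j y) := by
    intro mv i j y z d hz e
    have hi := hrT mv i
    have hj := hrT mv j
    have hB := hj.ne H.fam
    have h1 := hi.mul H.S (hj.inv H.S H.fam)
    have e' : mi i * Tm D0 mv i * (mi j * Tm D0 mv j)⁻¹ = z ^ ℓ * d := by
      rw [e, mul_assoc, mul_assoc, mul_inv_cancel₀ hB, mul_one]
    rwa [e'] at h1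
  have hpwr : ∀ (mv : Fin (m + 1) → ℕ) (i j : Fin (m + 1)) (y : ι ⊕ Fin m) (z d : K), z ≠ 0 →
      mi i * Tm D0 mv i = z ^ ℓ * (d * (mi j * Tm D0 mv j)) →
      Pw ℓ ((hp (Sum.elim T P y) (H.fam.irr y)).valuation K d) → Ex mv i y = Ex mv j y := by
    intro mv i j y z d hz e hd
    have h2 := rA _ _ _ (hval mv i j y z d hz e) y (by
      rw [map_mul, map_pow]
      exact (Pw.pow _).mul hd)
    linear_combination h2
  have hlocr : ∀ (mv : Fin (m + 1) → ℕ) (i j : Fin (m + 1)) (y : ι ⊕ Fin m) (z d : K), z ≠ 0 →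
      mi i * Tm D0 mv i = z ^ ℓ * (d * (mi j * Tm D0 mv j)) →
      (∃ x : (hp (Sum.elim T P y) (H.fam.irr y)).adicCompletion K,
        algebraMap K ((hp (Sum.elim T P y) (H.fam.irr y)).adicCompletion K) d = x ^ ℓ) →
      Ex mv i y = Ex mv j y ∧
        ∑ y', (Ex mv i y' - Ex mv j y') * L ℓ (Sum.elim T P y') (Sum.elim T P y) +
          ((Sum.elim T P y).natDegree : ZMod ℓ) * (Kc mv i - Kc mv j) = 0 := by
    rintro mv i j y z d hz e ⟨x, hx⟩
    obtain ⟨h2, h3⟩ := rB _ _ _ (hval mv i j y z d hz e) y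
      ⟨algebraMap K _ z * x, by rw [map_mul, map_pow, hx]; ring⟩
    exact ⟨by linear_combination h2, by simpa only [sub_eq_add_neg] using h3⟩
  -- nodes
  have hCl : ∀ s : Fin m, ∃ r : ℕ, (∀ i, U i (Sum.inr s) = - (r : ZMod ℓ) * tf ℓ 0 s.succ i) ∧
      ∀ mv : Fin (m + 1) → ℕ, mv s.succ = r → mv 0 = 0 →
        ∑ y', (Ex mv 0 y' - Ex mv s.succ y') *
            L ℓ (Sum.elim T P y') (Sum.elim T P (Sum.inr s)) +
          ((Sum.elim T P (Sum.inr s)).natDegree : ZMod ℓ) * (Kc mv 0 - Kc mv s.succ) = 0 := by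
    intro s
    obtain ⟨v, hv⟩ : ∃ v, v = hp (Sum.elim T P (Sum.inr s)) (H.fam.irr (Sum.inr s)) := ⟨_, rfl⟩
    have hpq : (0 : Fin (m + 1)) ≠ s.succ := (Fin.succ_ne_zero s).symm
    obtain ⟨c1, hc1, hc2⟩ : ∃ c1 : Fin (m + 1), c1 ≠ 0 ∧ c1 ≠ s.succ := by
      have h1 : ({0, s.succ} : Finset (Fin (m + 1))).card <
          (univ : Finset (Fin (m + 1))).card := by
        rw [card_univ, Fintype.card_fin]
        exact lt_of_le_of_lt card_le_two (by omega)
      obtain ⟨c, -, hc⟩ := exists_mem_notMem_of_card_lt_card h1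
      rw [mem_insert, mem_singleton, not_or] at hc
      exact ⟨c, hc⟩
    have hvd : v.valuation K (D0.e 0 - D0.e s.succ) = WithZero.exp (-1 : ℤ) := by
      rw [he, he, hv, H.val_diff (Sum.inr s) hpq]
      have h1 : (Sum.elim (fun _ => 0) (nu (0 : Fin (m + 1)) s.succ) (Sum.inr s : ι ⊕ Fin m) : ℕ) =
          1 := by
        change nu 0 s.succ s = 1
        unfold nu
        rw [if_pos (Or.inl ⟨rfl, rfl⟩)]
      rw [h1, pow_one]
    obtain ⟨r, hr⟩ := D0.coll_place (p := p) (v := v) (Ω := Ω v) hpq hc1 hc2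
      (by
        intro i j hij h1 h2
        rw [he, he, hv, H.val_diff (Sum.inr s) hij]
        have h3 : (Sum.elim (fun _ => 0) (nu i j) (Sum.inr s : ι ⊕ Fin m) : ℕ) = 0 := by
          change nu i j s = 0
          unfold nu
          rw [if_neg]
          rintro (⟨h4, h5⟩ | ⟨h4, h5⟩)
          · exact h1 ⟨h4.symm, h5.symm⟩
          · exact h2 ⟨h5.symm, h4.symm⟩
        rw [h3, pow_zero])
      (by
        rw [hvd, ← WithZero.exp_zero, WithZero.exp_lt_exp]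
        norm_num)
      (by
        rw [hvd]
        exact not_pw_exp hℓ.out)
      (by
        rw [hδ, hv, H.val_del hr0 (Sum.inr s)]
        exact pow_zero _)
      (H.val_ell v) (ht v)
    refine ⟨r, ?_, ?_⟩
    · obtain ⟨mv, hmv⟩ : ∃ mv : Fin (m + 1) → ℕ, mv = fun l => if l = s.succ then r else 0 :=
        ⟨_, rfl⟩
      obtain ⟨Q, χ', kd', hQ, hχ', hz⟩ := hadj mv
      have hmq : mv s.succ = r := by rw [hmv]; exact if_pos rfl
      have hmp : mv 0 = 0 := by rw [hmv]; exact if_neg hpq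
      obtain ⟨k1, k2⟩ := hr mv Q χ' kd' hmq hmp hQ hχ'
      have k3 : ∀ i j, U i (Sum.inr s) + (r : ZMod ℓ) * tf ℓ 0 s.succ i =
          U j (Sum.inr s) + (r : ZMod ℓ) * tf ℓ 0 s.succ j := by
        intro i j
        obtain ⟨z, hz0, e⟩ := hz i j
        have h3 := hpwr mv i j (Sum.inr s) z _ hz0 e (by rw [← hv]; exact k1 i j)
        rw [hEx] at h3
        simp only [Sum.elim_inr, hmp, hmq, Nat.cast_zero] at h3
        linear_combination h3
      have k4 := const_zero H.hn (fun i => U i (Sum.inr s) + (r : ZMod ℓ) * tf ℓ 0 s.succ i)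
        (by
          rw [sum_add_distrib, hsU, ← mul_sum, tf_sum, mul_zero, add_zero])
        k3
      intro i
      have k5 : U i (Sum.inr s) + (r : ZMod ℓ) * tf ℓ 0 s.succ i = 0 := congrFun k4 i
      linear_combination k5
    · intro mv hmq hmp
      obtain ⟨Q, χ', kd', hQ, hχ', hz⟩ := hadj mv
      obtain ⟨k1, k2⟩ := hr mv Q χ' kd' hmq hmp hQ hχ'
      obtain ⟨z, hz0, e⟩ := hz 0 s.succ
      exact (hlocr mv 0 s.succ (Sum.inr s) z _ hz0 e (by rw [← hv]; exact k2)).2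
  choose r hr1 hr2 using hCl
  -- twist places
  have hTl : ∀ x : ι, ∃ mv : Fin (m + 1) → ℕ, ∀ i j,
      Ex mv i (Sum.inl x) = Ex mv j (Sum.inl x) ∧
        ∑ y', (Ex mv i y' - Ex mv j y') * L ℓ (Sum.elim T P y') (Sum.elim T P (Sum.inl x)) +
          ((Sum.elim T P (Sum.inl x)).natDegree : ZMod ℓ) * (Kc mv i - Kc mv j) = 0 := by
    intro x
    obtain ⟨v, hv⟩ : ∃ v, v = hp (Sum.elim T P (Sum.inl x)) (H.fam.irr (Sum.inl x)) := ⟨_, rfl⟩
    obtain ⟨mv, hmv⟩ := D0.twist_place (p := p) (v := v) (Ω := Ω v) (fun i j hij => by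
      rw [he, he, hv, H.val_diff (Sum.inl x) hij]
      exact pow_zero _) (by
      rw [hδ, hv, H.val_del hr0 (Sum.inl x)]
      intro h
      exact H.ht x (pw_exp_pow hℓ.out h)) (H.val_ell v) (ht v)
    refine ⟨mv, fun i j => ?_⟩
    obtain ⟨Q, χ', kd', hQ, hχ', hz⟩ := hadj mv
    obtain ⟨z, hz0, e⟩ := hz i j
    refine hlocr mv i j (Sum.inl x) z _ hz0 e ?_
    rw [← hv]
    exact hmv Q χ' kd' hQ hχ' i j
  -- the adjustments at the twist places are the ones at the nodes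
  have hxr : ∀ x : ι, ∃ mv : Fin (m + 1) → ℕ, (∀ s : Fin m, (r s : ZMod ℓ) = mv s.succ - mv 0) ∧
      ∀ i j, U i (Sum.inl x) - U j (Sum.inl x) = t x * ((mv i : ZMod ℓ) - mv j) := by
    choose mw hmw using hTl
    have hU1 : ∀ x i j, U i (Sum.inl x) - U j (Sum.inl x) =
        t x * ((mw x i : ZMod ℓ) - mw x j) := by
      intro x i j
      have h1 := (hmw x i j).1
      rw [hEx] at h1
      simp only [Sum.elim_inl] at h1
      linear_combination h1
    obtain ⟨a, ha⟩ : ∃ a : ι → Fin m → ZMod ℓ,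
        a = fun x s => (mw x s.succ : ZMod ℓ) - mw x 0 - r s := ⟨_, rfl⟩
    have ha0 : a = 0 := by
      apply hker
      intro x b
      have h2 := (hmw x 0 b.succ).2
      have hd : ((Sum.elim T P (Sum.inl x)).natDegree : ZMod ℓ) = 0 := H.hTd x
      rw [hd, zero_mul, add_zero, Fintype.sum_sum_type] at h2
      have h3 : ∀ y : ι, (Ex (mw x) 0 (Sum.inl y) - Ex (mw x) b.succ (Sum.inl y)) *
          L ℓ (Sum.elim T P (Sum.inl y)) (Sum.elim T P (Sum.inl x)) =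
          (t y : ZMod ℓ) * L ℓ (T y) (T x) * (a x b - a y b) := by
        intro y
        have h4 := hU1 y 0 b.succ
        rw [hEx, ha]
        simp only [Sum.elim_inl]
        linear_combination (L ℓ (T y) (T x)) * h4
      have h5 : ∀ s : Fin m, (Ex (mw x) 0 (Sum.inr s) - Ex (mw x) b.succ (Sum.inr s)) *
          L ℓ (Sum.elim T P (Sum.inr s)) (Sum.elim T P (Sum.inl x)) =
          a x s * L ℓ (P s) (T x) + if s = b then a x s * L ℓ (P s) (T x) else 0 := by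
        intro s
        rw [hEx]
        simp only [Sum.elim_inr, Sum.elim_inl]
        rw [hr1, hr1, ha]
        have h6 : tf ℓ 0 s.succ (0 : Fin (m + 1)) = 1 := by
          unfold tf
          rw [if_pos rfl, if_neg (Fin.succ_ne_zero s), sub_zero]
        have h7 : tf ℓ 0 s.succ b.succ = - (if s = b then 1 else 0) := by
          unfold tf
          rw [if_neg (Fin.succ_ne_zero b).symm, zero_sub]
          simp only [Fin.succ_inj]
        rw [h6, h7]
        split_ifs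
        · ring
        · ring
      rw [sum_congr rfl fun y _ => h3 y, sum_congr rfl fun s _ => h5 s, sum_add_distrib,
        sum_ite_eq' univ b, if_pos (mem_univ b)] at h2
      linear_combination h2
    intro x
    refine ⟨mw x, fun s => ?_, hU1 x⟩
    have h1 : a x s = 0 := by rw [ha0]; rfl
    rw [ha] at h1
    linear_combination -h1
  -- the common adjustment
  obtain ⟨μ, hμ⟩ : ∃ μ : Fin (m + 1) → ZMod ℓ, μ = Fin.cons 0 (fun s => (r s : ZMod ℓ)) := ⟨_, rfl⟩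
  have hμ0 : μ 0 = 0 := by rw [hμ]; rfl
  have hμs : ∀ s : Fin m, μ s.succ = r s := fun s => by rw [hμ]; rfl
  obtain ⟨av, hav⟩ : ∃ av : ZMod ℓ, ((m + 1 : ℕ) : ZMod ℓ) * av = ∑ i, μ i :=
    ⟨((m + 1 : ℕ) : ZMod ℓ)⁻¹ * ∑ i, μ i, by rw [mul_inv_cancel_left₀ (cast_ne H.hn)]⟩
  have hsμ : ∑ i, (μ i - av) = 0 := by
    rw [sum_sub_distrib, sum_const, card_univ, Fintype.card_fin, nsmul_eq_mul, hav, sub_self]
  have hUx : ∀ x i, U i (Sum.inl x) = t x * (μ i - av) := by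
    intro x
    obtain ⟨mv, h1, h2⟩ := hxr x
    have h3 : ∀ i, (mv i : ZMod ℓ) - mv 0 = μ i := by
      intro i
      rcases Fin.eq_zero_or_eq_succ i with rfl | ⟨s, rfl⟩
      · rw [hμ0, sub_self]
      · rw [hμs, h1]
    have h4 := const_zero H.hn (fun i => U i (Sum.inl x) - t x * (μ i - av))
      (by rw [sum_sub_distrib, hsU, ← mul_sum, hsμ, mul_zero, sub_zero])
      (fun i j => by
        have h5 := h2 i j
        have h6 := h3 i
        have h7 := h3 j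
        linear_combination h5 + (t x : ZMod ℓ) * h6 - (t x : ZMod ℓ) * h7)
    intro i
    have h5 : U i (Sum.inl x) - t x * (μ i - av) = 0 := congrFun h4 i
    linear_combination h5
  -- the global comparison
  obtain ⟨mg, hmg⟩ : ∃ mg : Fin (m + 1) → ℕ, ∀ i, (mg i : ZMod ℓ) = μ i - av := by
    refine ⟨fun i => (μ i - av).val, fun i => ?_⟩
    rw [ZMod.natCast_zmod_val]
  have hE0 : ∀ i y, Ex mg i y = 0 := by
    intro i y
    rw [hEx]
    rcases y with x | s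
    · simp only [Sum.elim_inl]
      rw [hUx, hmg]
      ring
    · simp only [Sum.elim_inr]
      rw [hr1, hmg, hmg, hμ0, hμs]
      ring
  have hK0 : ∀ i, Kc mg i = 0 := by
    have h1 : ∀ s : Fin m, Kc mg 0 = Kc mg s.succ := by
      intro s
      obtain ⟨mv, hmv⟩ : ∃ mv : Fin (m + 1) → ℕ,
        mv = fun l => if l = s.succ then r s else (μ l).val := ⟨_, rfl⟩
      have hmv1 : ∀ l, (mv l : ZMod ℓ) = μ l := by
        intro l
        rw [hmv]
        by_cases hl : l = s.succ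
        · simp only [hl, if_true]
          rw [hμs]
        · simp only [if_neg hl]
          rw [ZMod.natCast_zmod_val]
      have hmvs : mv s.succ = r s := by rw [hmv]; exact if_pos rfl
      have hmv0 : mv 0 = 0 := by
        rw [hmv]
        simp only [if_neg (Fin.succ_ne_zero s).symm, hμ0, ZMod.val_zero]
      have h2 := hr2 s mv hmvs hmv0
      have h3 : ∀ y', Ex mv 0 y' - Ex mv s.succ y' = 0 := by
        intro y'
        rw [hEx]
        rcases y' with x | s'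
        · simp only [Sum.elim_inl]
          rw [hUx, hUx, hmv1, hmv1]
          ring
        · simp only [Sum.elim_inr]
          rw [hr1, hr1, hmv1, hmv1, hμ0, hμs]
          ring
      rw [sum_eq_zero (fun y' _ => by rw [h3 y', zero_mul]), zero_add] at h2
      have h4 := (mul_eq_zero.1 h2).resolve_left (H.deg_P_ne s)
      rw [hKc] at h4 ⊢
      simp only [hmv1, hmg] at h4 ⊢
      have h5 : ∀ i, ∑ j, (μ j - av - (μ i - av)) * cs ℓ g c i j =
          ∑ j, (μ j - μ i) * cs ℓ g c i j := fun i =>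
        sum_congr rfl fun j _ => by ring
      rw [h5, h5]
      linear_combination h4
    have h2 : ∀ i, Kc mg i = Kc mg 0 := by
      intro i
      rcases Fin.eq_zero_or_eq_succ i with rfl | ⟨s, rfl⟩
      · rfl
      · exact (h1 s).symm
    have h3 := const_zero H.hn (Kc mg) (by
      rw [hKc]
      simp only [hmg]
      rw [sum_add_distrib, hsc, zero_add, sum_sub_distrib, ← sum_mul, hsμ, zero_mul, sub_zero]
      have h4 : ∀ i, ∑ j, (μ j - av - (μ i - av)) * cs ℓ g c i j =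
          ∑ j, (μ j * cs ℓ g c i j) - ∑ j, μ i * cs ℓ g c i j := fun i => by
        rw [← sum_sub_distrib]
        exact sum_congr rfl fun j _ => by ring
      rw [sum_congr rfl fun i _ => h4 i, sum_sub_distrib, sum_comm, sub_eq_zero]
      refine sum_congr rfl fun i _ => sum_congr rfl fun j _ => ?_
      rw [H.cs_symm]) (fun i j => by rw [h2 i, h2 j])
    intro i
    exact congrFun h3 i
  obtain ⟨Q, χ', kd', hQ, hχ', hz⟩ := hadj mg
  have hsq : ∀ i j, ∃ z : K, kd'.d i j = z ^ ℓ := by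
    intro i j
    obtain ⟨z, hz0, e⟩ := hz i j
    have h2 := hval mg i j (Sum.inr ⟨0, by omega⟩) z _ hz0 e
    have h3 := h2.pow_mul' (z := z⁻¹) (inv_ne_zero hz0)
    have h4 : z⁻¹ ^ ℓ * (z ^ ℓ * kd'.d i j) = kd'.d i j := by
      rw [← mul_assoc, ← mul_pow, inv_mul_cancel₀ hz0, one_pow, one_mul]
    rw [h4] at h3
    refine rC _ (h3.congr ?_ (fun y => ?_))
    · rw [hK0, hK0, neg_zero, add_zero]
    · rw [hE0, hE0, neg_zero, add_zero]
      rfl
  refine ⟨Q, fun τ => ?_⟩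
  have h2 := hχ' τ
  rw [(D0.base E).cl_PT_of_modEq fun i j => ?_] at h2
  · exact (div_eq_one.1 h2.symm)
  · obtain ⟨z, hz⟩ := hsq i j
    exact D0.modEq_of_pow kd' hz τ

end Dtb

end Pool.Agent.D0H99.RM
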