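import Pool.Agent.D0H99.RM.Cr
import Pool.Agent.D0H99.FT.Fm

/-!
Twists of a pencil by products of primes: locally trivial classes.
-/

set_option autoImplicit false
set_option linter.all false

open Polynomial IsDedekindDomain

namespace Pool.Agent.D0H99.RM

open Finset
open Pool.Agent.Y164.SZ
open Pool.Agent.Y713.SE (pencil tDat)
open Pool.Agent.Y164.PS (Fam)
open Pool.Agent.Y713.Jac (ShaPrimaryTrivial ShaTateTrivial)
open Pool.Agent.D0H99.FT (br nu cs val_el val_el_one adj Pen Nod)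

section
variable {ℓ : ℕ} [hℓ : Fact ℓ.Prime] {k : Type} [Field k] [Fintype k] [DecidableEq k]
variable {K : Type} [Field K] [Algebra k[X] K] [IsFractionRing k[X] K]

theorem Dtb.primary {m : ℕ} {c : Fin m → k} {g : k[X]} {P : Fin m → k[X]} {ι : Type} [Fintype ι]
    {T : ι → k[X]} {t : ι → ℕ} (H : Dtb ℓ c g P T t) [Nonempty ι]
    (hker : ∀ a : ι → Fin m → ZMod ℓ, (∀ x b, ∑ y, (t y : ZMod ℓ) * L ℓ (T y) (T x) *
      (a x b - a y b) + ∑ s, a x s * L ℓ (P s) (T x) + a x b * L ℓ (P b) (T x) = 0) → a = 0)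
    {ζ : k}
    (hζ : IsPrimitiveRoot ζ ℓ) {h : k[X]} (hlc : h.leadingCoeff ≠ 0)
    (hfac : h = C h.leadingCoeff * ∏ i, (Polynomial.X - C (c i))) {r0 : k} (hr0 : r0 ≠ 0) :
    ShaPrimaryTrivial ℓ (C (algebraMap k[X] K (C r0 * ∏ x, T x ^ t x)) * pencil K h g) k[X] := by
  have hinj := IsFractionRing.injective k[X] K
  have he : Function.Injective fun i => algebraMap k[X] K (br g c i) := by
    intro i j hij
    by_contra hne
    exact H.br_ne hne (hinj hij)
  have hr1 : h.leadingCoeff * r0 ≠ 0 := mul_ne_zero hlc hr0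
  have hδ0 : C (h.leadingCoeff * r0) * ∏ x, T x ^ t x ≠ 0 :=
    mul_ne_zero (C_ne_zero.2 hr1) (Finset.prod_ne_zero_iff.2 fun x _ =>
      pow_ne_zero _ (H.fam.irr (Sum.inl x)).ne_zero)
  have hδ : algebraMap k[X] K (C (h.leadingCoeff * r0) * ∏ x, T x ^ t x) ≠ 0 := by
    rwa [Ne, map_eq_zero_iff _ hinj]
  let DD := tDat K hℓ.out H.hlk hζ hδ he H.hn
  have hf : DD.f = C (algebraMap k[X] K (C r0 * ∏ x, T x ^ t x)) * pencil K h g := by
    unfold Pool.Agent.Y713.SE.Dat.f pencil
    change C (algebraMap k[X] K (C (h.leadingCoeff * r0) * ∏ x, T x ^ t x)) *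
      ∏ i : Fin (m + 1), (Polynomial.X - C (algebraMap k[X] K (br g c i))) = _
    rw [Fin.prod_univ_succ]
    conv_rhs => rw [hfac]
    rw [Polynomial.map_mul, map_C, Polynomial.map_prod]
    simp only [Polynomial.map_sub, Polynomial.map_X, map_C, RingHom.comp_apply, map_mul, C_mul]
    have e1 : (br g c 0) = g := rfl
    have e2 : ∀ i : Fin m, br g c i.succ = C (c i) := fun i => rfl
    rw [e1]
    simp only [e2]
    ring
  rw [← hf]
  obtain ⟨p, hexp⟩ := ExpChar.exists K
  haveI := hexp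
  haveI : ExpChar (SeparableClosure K) p :=
    expChar_of_injective_algebraMap (algebraMap K (SeparableClosure K)).injective p
  haveI : ∀ v : HeightOneSpectrum k[X], ExpChar (SeparableClosure (v.adicCompletion K)) p := fun v =>
    expChar_of_injective_algebraMap
      (algebraMap K (SeparableClosure (v.adicCompletion K))).injective p
  apply DD.sha_primary (R := k[X])
  intro χ hc ht
  exact H.crit hker DD hr1 rfl (fun i => rfl) (p := p)
    (fun v => SeparableClosure (v.adicCompletion K)) χ hc ht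

end

theorem family {ℓ : ℕ} [hℓ : Fact ℓ.Prime] {k : Type} [Field k] [Fintype k] [DecidableEq k]
    (S : SYM0 ℓ k) (hneg : ∃ z : k, z ^ ℓ = -1) (hlk0 : ((ℓ : ℕ) : k) ≠ 0) {ζ : k}
    (hζ : IsPrimitiveRoot ζ ℓ) {h g : k[X]} (HP : Pen ℓ h g) {c : Fin h.natDegree → k}
    {P : Fin h.natDegree → k[X]} (HN : Nod h g c P) {r : ℕ} (hr : 0 < r)
    {D : Fin r → k[X]} (hD1 : Function.Injective D)
    (hD2 : ∀ j, (D j).Monic ∧ Irreducible (D j) ∧ ℓ ∣ (D j).natDegree) {e : Fin r → ℕ}
    (he : ∀ j, ¬ ℓ ∣ e j)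
    (hker : ∀ a : Fin r → V ℓ h.natDegree, Sol (fun j => (e j : ZMod ℓ))
      (fun x y => L ℓ (D y) (D x)) (fun x s => L ℓ (P s) (D x)) a → a = 0)
    {K : Type} [Field K] [Algebra k[X] K] [IsFractionRing k[X] K] {c0 : k} (hc0 : c0 ≠ 0) :
    ShaPrimaryTrivial ℓ (C (algebraMap k[X] K (C c0 * ∏ j, D j ^ e j)) * pencil K h g)
      k[X] := by
  classical
  have hlc : h.leadingCoeff ≠ 0 := leadingCoeff_ne_zero.2 HP.hsep.ne_zero
  have hD3 : ∀ a j, P a ≠ D j := by
    intro a j hj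
    apply HP.hg
    rw [← HN.hPd a, hj]
    exact (hD2 j).2.2
  haveI : Nonempty (Fin r) := ⟨⟨0, hr⟩⟩
  have H : Dtb ℓ c g P D e :=
    { S := S
      hl := hneg
      hlk := hlk0
      hm := HP.hd2
      hn := HP.hn
      hc := HN.hc
      hg := HP.hg
      hP := HN.hP
      fam := by
        refine ⟨?_, ?_, ?_⟩
        · rintro (x | a)
          · exact (hD2 x).1
          · exact HN.hPm a
        · rintro (x | a)
          · exact (hD2 x).2.1
          · exact HN.hPi a
        · refine hD1.sumElim HN.hPinj ?_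
          intro x a
          exact (hD3 a x).symm
      ht := he
      hTd := fun x => (ZMod.natCast_eq_zero_iff _ _).2 (hD2 x).2.2 }
  exact H.primary (K := K) hker hζ hlc HN.hfac hc0

end Pool.Agent.D0H99.RM
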