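import Pool.Agent.D0H99.FT.Dn
import Pool.Agent.D0H99.RM.Fin

/-!
The equidistribution of the symbols between the members of a random tuple of primes.
-/

set_option autoImplicit false
set_option linter.all false

open Polynomial IsDedekindDomain Filter

namespace Pool.Agent.D0H99.RM

open Finset
open Pool.Agent.Y164.SZ
open Pool.Agent.Y164.PS (Fam Pr mem_Pr card_Pr_ge)
open Pool.Agent.D0H99.FT (count_one er er_small)

section
variable (ℓ : ℕ) {k : Type} [Field k] [Fintype k] [DecidableEq k] {m : ℕ} (P : Fin m → k[X])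

open Classical in
/-- the tuples of primes with prescribed symbols -/
noncomputable def Pt {r : ℕ} (n : ℕ) (A : Fin r → Fin r → ZMod ℓ) (p : Fin r → V ℓ m) :
    Finset (Fin r → k[X]) :=
  (Fintype.piFinset fun _ : Fin r => Pr k n).filter fun d => Function.Injective d ∧
    (∀ i s, L ℓ (P s) (d i) = p i s) ∧ ∀ i j, i ≠ j → L ℓ (d j) (d i) = A i j

open Classical in
/-- the extensions of a tuple -/
noncomputable def exT {r : ℕ} (n : ℕ) (b : Fin r → ZMod ℓ) (q : V ℓ m) (d : Fin r → k[X]) :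
    Finset k[X] :=
  (Pr k n).filter fun x => (∀ y, Sum.elim d P y ≠ x) ∧
    ∀ y, L ℓ (Sum.elim d P y) x = Sum.elim b q y

end

section
variable {ℓ : ℕ} [hℓ : Fact ℓ.Prime]

theorem card_X (m r : ℕ) : Nat.card (X ℓ m r) = (∏ i ∈ range r, ℓ ^ i) * ℓ ^ (m * r) := by
  rw [Nat.card_eq_fintype_card]
  unfold X V
  rw [Fintype.card_prod, Fintype.card_pi]
  simp only [Fintype.card_fun, ZMod.card, Fintype.card_fin]
  rw [← pow_mul, Fin.prod_univ_eq_prod_range (fun i => ℓ ^ i) r]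

theorem card_X_succ (m r : ℕ) : Nat.card (X ℓ m (r + 1)) = Nat.card (X ℓ m r) * ℓ ^ (r + m) := by
  rw [card_X, card_X, prod_range_succ]
  ring

theorem card_X_pos (m r : ℕ) : 0 < Nat.card (X ℓ m r) := by
  rw [card_X]
  have := hℓ.out.pos
  positivity

/-- the expected density -/
noncomputable def cst (ℓ m r : ℕ) : ℝ := 1 / (Nat.card (X ℓ m r) : ℝ)

theorem cst_succ (m r : ℕ) : cst ℓ m (r + 1) = cst ℓ m r * (1 / (ℓ : ℝ) ^ (r + m)) := by
  unfold cst
  rw [card_X_succ]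
  push_cast
  rw [one_div_mul_one_div]

theorem cst_le (m r : ℕ) : 0 < cst ℓ m r ∧ cst ℓ m r ≤ 1 := by
  have h1 : (1 : ℝ) ≤ (Nat.card (X ℓ m r) : ℝ) := by exact_mod_cast card_X_pos (ℓ := ℓ) m r
  refine ⟨by unfold cst; positivity, ?_⟩
  unfold cst
  rw [div_le_one (by linarith)]
  exact h1

variable {k : Type} [Field k] [Fintype k] [DecidableEq k] {m : ℕ} {P : Fin m → k[X]}

theorem exT_card (S : SYM ℓ k) (hPm : ∀ a, (P a).Monic) (hPi : ∀ a, Irreducible (P a))
    (hPinj : Function.Injective P) {N : ℕ} (hPd : ∀ a, (P a).natDegree = N) (hN : ¬ ℓ ∣ N)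
    {r n : ℕ} (hn : 1 ≤ n) (hln : ℓ ∣ n) (b : Fin r → ZMod ℓ) (q : V ℓ m) {d : Fin r → k[X]}
    (hd1 : ∀ i, d i ∈ Pr k n) (hd2 : Function.Injective d) :
    1 / (ℓ : ℝ) ^ (r + m) * (Pr k n).card - er ℓ m N r (Real.sqrt (Fintype.card k)) n ≤
      ((exT ℓ P n b q d).card : ℝ) := by
  classical
  have hd5 : ∀ i, (d i).Monic ∧ Irreducible (d i) ∧ (d i).natDegree = n := fun i =>
    mem_Pr.1 (hd1 i)
  have hR : Fam (Sum.elim d P) := by
    refine ⟨?_, ?_, ?_⟩
    · rintro (x | a)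
      · exact (hd5 x).1
      · exact hPm a
    · rintro (x | a)
      · exact (hd5 x).2.1
      · exact hPi a
    · refine hd2.sumElim hPinj ?_
      intro x a h
      apply hN
      rw [← hPd a, ← h, (hd5 x).2.2]
      exact hln
  have hW : ∑ x, ((Sum.elim d P x).natDegree) ≤ r * n + m * N := by
    rw [Fintype.sum_sum_type]
    simp only [Sum.elim_inl, Sum.elim_inr]
    rw [sum_congr rfl fun i _ => (hd5 i).2.2, sum_congr rfl fun a _ => hPd a, sum_const, sum_const,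
      card_univ, card_univ, Fintype.card_fin, Fintype.card_fin, smul_eq_mul, smul_eq_mul]
  have h1 := count_one S hR (Sum.elim b q) hn hW
  have h2 : (Fintype.card (Fin r ⊕ Fin m → ZMod ℓ) : ℝ) = (ℓ : ℝ) ^ (r + m) := by
    rw [Fintype.card_fun, ZMod.card, Fintype.card_sum, Fintype.card_fin, Fintype.card_fin,
      Nat.cast_pow]
  have h3 : (Fintype.card (Fin r ⊕ Fin m) : ℝ) = ((r + m : ℕ) : ℝ) := by
    rw [Fintype.card_sum, Fintype.card_fin, Fintype.card_fin]
  rw [h2, h3] at h1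
  have h4 : ((5 * (ℓ * (r * n + m * N) : ℕ) + 2) * (Real.sqrt (Fintype.card k)) ^ n +
      ((r + m : ℕ) : ℝ)) ≤ er ℓ m N r (Real.sqrt (Fintype.card k)) n := by
    have h5 : (0 : ℝ) ≤ ((5 * (ℓ * (r * n + m * N) : ℕ) + 2) * (Real.sqrt (Fintype.card k)) ^ n +
      ((r + m : ℕ) : ℝ)) := by positivity
    have h6 : (1 : ℝ) ≤ ((ℓ : ℝ) - 1) ^ m := by
      apply one_le_pow₀
      have : (2 : ℝ) ≤ ℓ := by exact_mod_cast hℓ.out.two_le
      linarith
    unfold er
    nlinarith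
  have h5 : ((exT ℓ P n b q d).card : ℝ) = (((Pr k n).filter fun x => (∀ y, Sum.elim d P y ≠ x) ∧
      ∀ y, L ℓ (Sum.elim d P y) x = Sum.elim b q y).card : ℝ) := by
    congr 2
  rw [h5, one_div_mul_eq_div]
  linarith

theorem step_card {r n : ℕ} (S : SYM0 ℓ k) (A : Fin (r + 1) → Fin (r + 1) → ZMod ℓ)
    (hA : ∀ i j, A i j = A j i) (p : Fin (r + 1) → V ℓ m) :
    ∑ d ∈ Pt ℓ P n (fun i j => A i.succ j.succ) (fun i => p i.succ),
      (exT ℓ P n (fun i => A 0 i.succ) (p 0) d).card ≤ (Pt ℓ P n A p).card := by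
  classical
  rw [← card_sigma]
  refine card_le_card_of_injOn (fun x => (Fin.cons x.2 x.1 : Fin (r + 1) → k[X])) ?_ ?_
  · rintro ⟨d, x⟩ hx
    rw [mem_coe, mem_sigma] at hx
    obtain ⟨hd, hx⟩ := hx
    simp only at hd hx
    rw [Pt, mem_filter, Fintype.mem_piFinset] at hd
    rw [exT, mem_filter] at hx
    obtain ⟨hd1, hd2, hd3, hd4⟩ := hd
    obtain ⟨hx1, hx2, hx3⟩ := hx
    have hx4 : ∀ i, L ℓ (d i) x = A 0 i.succ := fun i => hx3 (Sum.inl i)
    have hx5 : ∀ s, L ℓ (P s) x = p 0 s := fun s => hx3 (Sum.inr s)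
    rw [mem_coe, Pt, mem_filter, Fintype.mem_piFinset]
    refine ⟨fun i => ?_, ?_, fun i s => ?_, fun i j hij => ?_⟩
    · refine Fin.cases ?_ (fun i => ?_) i
      · exact hx1
      · exact hd1 i
    · rw [Fin.cons_injective_iff]
      refine ⟨?_, hd2⟩
      rintro ⟨i, hi⟩
      exact hx2 (Sum.inl i) hi
    · rcases Fin.eq_zero_or_eq_succ i with rfl | ⟨i, rfl⟩
      · exact hx5 s
      · exact hd3 i s
    · rcases Fin.eq_zero_or_eq_succ i with rfl | ⟨i, rfl⟩ <;>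
        rcases Fin.eq_zero_or_eq_succ j with rfl | ⟨j, rfl⟩
      · exact absurd rfl hij
      · simp only [Fin.cons_zero, Fin.cons_succ]
        exact hx4 j
      · simp only [Fin.cons_zero, Fin.cons_succ]
        rw [S.L_comm, hA]
        exact hx4 i
      · simp only [Fin.cons_succ]
        exact hd4 i j fun h => hij (congrArg Fin.succ h)
  · rintro ⟨d, x⟩ _ ⟨d', x'⟩ _ h
    simp only at h
    have h1 := Fin.cons_injective2 h
    obtain ⟨h2, h3⟩ := h1
    rw [h2, h3]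

theorem pt_density (S : SYM ℓ k) (hk : ringChar k ≠ 2) (m : ℕ) {N : ℕ} (hN : ¬ ℓ ∣ N) (r : ℕ) :
    ∀ ε : ℝ, 0 < ε → ∀ᶠ n : ℕ in atTop, ℓ ∣ n → ∀ P : Fin m → k[X], (∀ a, (P a).Monic) →
      (∀ a, Irreducible (P a)) → Function.Injective P → (∀ a, (P a).natDegree = N) →
      ∀ (A : Fin r → Fin r → ZMod ℓ) (p : Fin r → V ℓ m), (∀ i j, A i j = A j i) →
      (cst ℓ m r - ε) * ((Pr k n).card : ℝ) ^ r ≤ ((Pt ℓ P n A p).card : ℝ) := by
  induction r with
  | zero =>
    intro ε hε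
    refine Eventually.of_forall fun n _ P _ _ _ _ A p _ => ?_
    have h1 : (Pt ℓ P n A p).card = 1 := by
      classical
      rw [Pt, filter_true_of_mem, Fintype.card_piFinset, Fin.prod_univ_zero]
      intro d _
      exact ⟨fun i => i.elim0, fun i => i.elim0, fun i => i.elim0⟩
    rw [h1, pow_zero, mul_one, Nat.cast_one]
    linarith [(cst_le (ℓ := ℓ) m 0).2]
  | succ r ih =>
    intro ε hε
    obtain ⟨δ, hδ⟩ : ∃ δ : ℝ, δ = ε / 2 := ⟨_, rfl⟩
    have hδ0 : 0 < δ := by rw [hδ]; linarith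
    filter_upwards [ih δ hδ0, er_small (ℓ := ℓ) (m := m) hk N r hδ0, eventually_ge_atTop 1] with
      n h1 h2 h3 hln P hPm hPi hPinj hPd A p hA
    have h4 := h1 hln P hPm hPi hPinj hPd (fun i j => A i.succ j.succ) (fun i => p i.succ) (fun i j => hA _ _)
    obtain ⟨G, hG⟩ : ∃ G, G = Pt ℓ P n (fun i j => A i.succ j.succ) (fun i => p i.succ) := ⟨_, rfl⟩
    rw [← hG] at h4
    obtain ⟨rho, hrho⟩ : ∃ rho : ℝ, rho = 1 / (ℓ : ℝ) ^ (r + m) := ⟨_, rfl⟩
    have hr0 : 0 ≤ rho := by rw [hrho]; positivity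
    have hr1 : rho ≤ 1 := by
      rw [hrho, div_le_one (by have := hℓ.out.pos; positivity)]
      exact one_le_pow₀ (by exact_mod_cast hℓ.out.one_lt.le)
    obtain ⟨hc0, hc1⟩ := cst_le (ℓ := ℓ) m r
    have h5 : (G.card : ℝ) * ((rho - δ) * (Pr k n).card) ≤ ((Pt ℓ P n A p).card : ℝ) := by
      have h6 : ((∑ d ∈ G, (exT ℓ P n (fun i => A 0 i.succ) (p 0) d).card : ℕ) : ℝ) ≤
          ((Pt ℓ P n A p).card : ℝ) := by
        rw [hG]
        exact_mod_cast step_card S.toSYM0 A hA p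
      refine le_trans ?_ h6
      rw [Nat.cast_sum, ← nsmul_eq_mul, ← sum_const]
      refine sum_le_sum fun d hd => ?_
      rw [hG, Pt, mem_filter, Fintype.mem_piFinset] at hd
      have h7 := exT_card S hPm hPi hPinj hPd hN h3 hln (fun i => A 0 i.succ) (p 0) hd.1 hd.2.1
      rw [← hrho] at h7
      linarith
    rw [cst_succ, ← hrho]
    have hp : (0 : ℝ) ≤ (Pr k n).card := Nat.cast_nonneg _
    have hG0 : (0 : ℝ) ≤ (Pt ℓ P n A p).card := Nat.cast_nonneg _
    have hpr : (0 : ℝ) ≤ ((Pr k n).card : ℝ) ^ (r + 1) := by positivity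
    by_cases hcase : rho - δ ≤ 0
    · refine le_trans ?_ hG0
      apply mul_nonpos_of_nonpos_of_nonneg _ hpr
      nlinarith
    · push Not at hcase
      refine le_trans ?_ h5
      have h8 : (cst ℓ m r - δ) * ((Pr k n).card : ℝ) ^ r * ((rho - δ) * (Pr k n).card) ≤
          (G.card : ℝ) * ((rho - δ) * (Pr k n).card) :=
        mul_le_mul_of_nonneg_right h4 (mul_nonneg hcase.le hp)
      refine le_trans ?_ h8
      have h9 : (cst ℓ m r - δ) * ((Pr k n).card : ℝ) ^ r * ((rho - δ) * (Pr k n).card) =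
          ((cst ℓ m r - δ) * (rho - δ)) * ((Pr k n).card : ℝ) ^ (r + 1) := by ring
      rw [h9]
      apply mul_le_mul_of_nonneg_right _ hpr
      nlinarith

end

end Pool.Agent.D0H99.RM
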