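import Pool.Agent.D0H99.FT.Pp
import Pool.Agent.D0H99.RM.Dn
import Pool.Agent.D0H99.RM.Stm2

/-!
The proportion of the twists by products of `r` primes with minimal Selmer group.
-/

set_option autoImplicit false
set_option linter.all false

open Polynomial IsDedekindDomain Filter

namespace Pool.Agent.D0H99.RM

open Finset
open Pool.Agent.Y164.SZ
open Pool.Agent.Y164.PS (Fam Pr mem_Pr card_Pr_ge)
open Pool.Agent.Y713.SE (pencil tDat)
open Pool.Agent.Y713.Jac (ShaPrimaryTrivial ShaTateTrivial)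
open Pool.Agent.D0H99.FT (Pen Nod zeta_data sym0 chr)

/-- the systems with the zero solution only -/
def Gd {ℓ m r : ℕ} (t : Fin r → ZMod ℓ) : Set (X ℓ m r) :=
  {x | ∀ a : Fin r → V ℓ m, Sol t (sy x.1) x.2 a → a = 0}

theorem count_good (hMO : S_MO) {ℓ : ℕ} (hℓ : ℓ.Prime) (hℓ2 : ℓ ≠ 2) {m : ℕ} (hm : ¬ ℓ ∣ m + 1)
    {ε : ℝ} (hε : 0 < ε) : ∃ r0 : ℕ, ∀ r : ℕ, r0 ≤ r → ∀ t : Fin r → ZMod ℓ, (∀ i, t i ≠ 0) →
      (1 - 1 / ((ℓ : ℝ) - 1) - ε) * Nat.card (X ℓ m r) ≤ ((Gd (m := m) t).ncard : ℝ) := by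
  haveI : Fact ℓ.Prime := ⟨hℓ⟩
  obtain ⟨r0, h0⟩ := hMO ℓ m hℓ hℓ2 hm ε hε
  refine ⟨r0, fun r hr t ht => ?_⟩
  have h1 := h0 r hr t ht
  have h2 : {x : X ℓ m r | ∃ a : Fin r → V ℓ m, a ≠ 0 ∧ Sol t (sy x.1) x.2 a} = (Gd t)ᶜ := by
    ext x
    rw [Set.mem_setOf_eq, Set.mem_compl_iff, Gd, Set.mem_setOf_eq]
    push Not
    exact exists_congr fun a => and_comm
  rw [h2] at h1
  have h3 := Set.ncard_add_ncard_compl (Gd (m := m) t)
  have h4 : ((Gd (m := m) t).ncard : ℝ) + ((Gd (m := m) t)ᶜ.ncard : ℝ) = Nat.card (X ℓ m r) := by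
    exact_mod_cast h3
  linarith

theorem main_gen {ℓ : ℕ} (hℓ : ℓ.Prime) {m : ℕ} {ρ ε : ℝ} (hε : 0 < ε) {r : ℕ} (hrpos : 0 < r)
    (hG0 : ∀ t : Fin r → ZMod ℓ, (∀ i, t i ≠ 0) →
      (ρ - ε / 2) * Nat.card (X ℓ m r) ≤ ((Gd (m := m) t).ncard : ℝ))
    (k : Type) [Field k] [Finite k] (hneg : ∃ z : k, z ^ ℓ = -1) (h2 : (2 : k) ≠ 0)
    (hlk : ℓ ∣ Nat.card k - 1) (N : ℕ) :
    ∀ᶠ n : ℕ in atTop, ℓ ∣ n → ∀ h g : k[X], Pen ℓ h g → h.natDegree = m → g.natDegree = N →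
      ∀ t : Fin r → ℕ, (∀ i, ¬ ℓ ∣ t i) →
      (ρ - ε) *
        (({d : Fin r → k[X] | ∀ i, (d i).Monic ∧ Irreducible (d i) ∧
          (d i).natDegree = n}).ncard : ℝ) ≤
        (({d : Fin r → k[X] | (∀ i, (d i).Monic ∧ Irreducible (d i) ∧
          (d i).natDegree = n) ∧ ∀ c : k, c ≠ 0 → ShaPrimaryTrivial ℓ
          (C (algebraMap k[X] (RatFunc k) (C c * ∏ j, d j ^ t j)) *
            pencil (RatFunc k) h g) k[X]}).ncard : ℝ) := by
  classical
  haveI : Fact ℓ.Prime := ⟨hℓ⟩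
  by_cases hN : ℓ ∣ N
  · refine Eventually.of_forall fun n _ h g HP _ hg => ?_
    exact absurd (hg ▸ hN) HP.hg
  obtain ⟨hlk0, ζ, hζ⟩ := zeta_data hℓ hlk
  letI : Fintype k := Fintype.ofFinite k
  have hchar : ringChar k ≠ 2 := by
    intro h
    apply h2
    have := ringChar.Nat.cast_ringChar (R := k)
    rw [h] at this
    exact_mod_cast this
  have hcard : Nat.card k = Fintype.card k := Nat.card_eq_fintype_card
  rw [hcard] at hlk
  have S : SYM0 ℓ k := sym0 hneg hlk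
  have S' : SYM ℓ k := chr hlk hchar S
  have hXpos : (0 : ℝ) < (Nat.card (X ℓ m r) : ℝ) := by exact_mod_cast card_X_pos (ℓ := ℓ) m r
  obtain ⟨η, hη⟩ : ∃ η : ℝ, η = ε / 2 / (Nat.card (X ℓ m r) : ℝ) := ⟨_, rfl⟩
  have hη0 : 0 < η := by rw [hη]; positivity
  filter_upwards [pt_density S' hchar m hN r η hη0] with n hn hln h g HP hdm hgN t ht
  subst hdm
  obtain ⟨c, P, HN⟩ := HP.nodes
  have hn1 := hn hln P HN.hPm HN.hPi HN.hPinj (fun a => (HN.hPd a).trans hgN)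
  have ht0 : ∀ i, ((t i : ℕ) : ZMod ℓ) ≠ 0 := fun i h => ht i ((ZMod.natCast_eq_zero_iff _ _).1 h)
  have hg0 := hG0 (fun i => ((t i : ℕ) : ZMod ℓ)) ht0
  obtain ⟨G, hG⟩ : ∃ G : Finset (X ℓ h.natDegree r),
      (G : Set (X ℓ h.natDegree r)) = Gd (fun i => ((t i : ℕ) : ZMod ℓ)) :=
    ⟨(Set.toFinite (Gd (fun i => ((t i : ℕ) : ZMod ℓ)))).toFinset, Set.Finite.coe_toFinset _⟩
  rw [← hG, Set.ncard_coe_finset] at hg0
  have hA : {d : Fin r → k[X] | ∀ i, (d i).Monic ∧ Irreducible (d i) ∧ (d i).natDegree = n} =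
      ((Fintype.piFinset fun _ : Fin r => Pr k n : Finset (Fin r → k[X])) :
        Set (Fin r → k[X])) := by
    ext d
    rw [Set.mem_setOf_eq, mem_coe, Fintype.mem_piFinset]
    exact forall_congr' fun i => (mem_Pr (k := k)).symm
  rw [hA, Set.ncard_coe_finset, Fintype.card_piFinset, prod_const, card_univ, Fintype.card_fin,
    Nat.cast_pow]
  -- the union
  obtain ⟨U, hU⟩ : ∃ U : Finset (Fin r → k[X]), U = G.biUnion fun x => Pt ℓ P n (sy x.1) x.2 :=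
    ⟨_, rfl⟩
  have hsy : ∀ (x : X ℓ h.natDegree r) i j, sy x.1 i j = sy x.1 j i := by
    intro x i j
    unfold sy
    rcases lt_trichotomy (i : ℕ) j with h | h | h
    · rw [dif_neg (by omega), dif_pos h, dif_pos h]
    · rw [dif_neg (by omega), dif_neg (by omega), dif_neg (by omega), dif_neg (by omega)]
    · rw [dif_pos h, dif_neg (by omega), dif_pos h]
  have hUc : (U.card : ℝ) = ∑ x ∈ G, ((Pt ℓ P n (sy x.1) x.2).card : ℝ) := by
    rw [hU, card_biUnion, Nat.cast_sum]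
    intro x _ y _ hxy
    change Disjoint (Pt ℓ P n (sy x.1) x.2) (Pt ℓ P n (sy y.1) y.2)
    rw [Finset.disjoint_left]
    intro d hd hd'
    apply hxy
    rw [Pt, mem_filter] at hd hd'
    obtain ⟨-, -, h1, h3⟩ := hd
    obtain ⟨-, -, h1', h3'⟩ := hd'
    refine Prod.ext ?_ ?_
    · funext i j
      have hji : (j : ℕ) < i := j.2
      have hjr : (j : ℕ) < r := hji.trans i.2
      have h4 := h3 i ⟨j, hjr⟩ (fun h => by
        have := congrArg Fin.val h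
        simp only at this
        omega)
      have h5 := h3' i ⟨j, hjr⟩ (fun h => by
        have := congrArg Fin.val h
        simp only at this
        omega)
      have h6 : sy x.1 i ⟨j, hjr⟩ = x.1 i j := by
        unfold sy
        rw [dif_pos hji]
      have h7 : sy y.1 i ⟨j, hjr⟩ = y.1 i j := by
        unfold sy
        rw [dif_pos hji]
      rw [← h6, ← h7, ← h4, ← h5]
    · funext i s
      rw [← h1 i s, ← h1' i s]
  have hUb : (G.card : ℝ) * ((cst ℓ h.natDegree r - η) * ((Pr k n).card : ℝ) ^ r) ≤ U.card := by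
    rw [hUc, ← nsmul_eq_mul, ← sum_const]
    exact sum_le_sum fun x _ => hn1 (sy x.1) x.2 (hsy x)
  have hGX : (G.card : ℝ) ≤ Nat.card (X ℓ h.natDegree r) := by
    rw [Nat.card_eq_fintype_card]
    exact_mod_cast card_le_univ G
  have hp0 : (0 : ℝ) ≤ ((Pr k n).card : ℝ) ^ r := by positivity
  have hmain : (ρ - ε) * ((Pr k n).card : ℝ) ^ r ≤ U.card := by
    refine le_trans ?_ hUb
    rw [← mul_assoc]
    apply mul_le_mul_of_nonneg_right _ hp0
    have h5 : ρ - ε / 2 ≤ G.card * cst ℓ h.natDegree r := by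
      unfold cst
      rw [mul_one_div, le_div_iff₀ hXpos]
      exact hg0
    have h6 : (G.card : ℝ) * η ≤ ε / 2 := by
      calc (G.card : ℝ) * η ≤ Nat.card (X ℓ h.natDegree r) * η :=
            mul_le_mul_of_nonneg_right hGX hη0.le
        _ = ε / 2 := by rw [hη]; field_simp
    have h7 : (G.card : ℝ) * (cst ℓ h.natDegree r - η) = G.card * cst ℓ h.natDegree r -
      G.card * η := by ring
    rw [h7]
    linarith
  refine hmain.trans ?_
  have hsub : (U : Set (Fin r → k[X])) ⊆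
      {d : Fin r → k[X] | (∀ i, (d i).Monic ∧ Irreducible (d i) ∧ (d i).natDegree = n) ∧
        ∀ c : k, c ≠ 0 → ShaPrimaryTrivial ℓ
          (C (algebraMap k[X] (RatFunc k) (C c * ∏ j, d j ^ t j)) *
            pencil (RatFunc k) h g) k[X]} := by
    intro d hd
    rw [mem_coe, hU, mem_biUnion] at hd
    obtain ⟨x, hxG, hd⟩ := hd
    rw [Pt, mem_filter, Fintype.mem_piFinset] at hd
    obtain ⟨hd1, hd2, hd3, hd4⟩ := hd
    have hd5 : ∀ i, (d i).Monic ∧ Irreducible (d i) ∧ (d i).natDegree = n := fun i =>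
      mem_Pr.1 (hd1 i)
    have hx : x ∈ Gd (fun i => ((t i : ℕ) : ZMod ℓ)) := by
      rw [← hG]
      exact hxG
    refine ⟨hd5, fun c0 hc0 => ?_⟩
    refine family S hneg hlk0 hζ HP HN hrpos hd2
      (fun j => ⟨(hd5 j).1, (hd5 j).2.1, by rw [(hd5 j).2.2]; exact hln⟩) ht ?_ hc0
    intro a ha
    apply hx a
    have e1 : (fun x y => L ℓ (d y) (d x)) = sy x.1 := by
      funext i j
      by_cases hij : i = j
      · subst hij
        have h8 : L ℓ (d i) (d i) = 0 := by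
          apply S.L_nc _ _ (hd5 i).2.1.ne_zero
          intro h
          exact (hd5 i).2.1.not_isUnit (h.isUnit_of_dvd' dvd_rfl dvd_rfl)
        have h9 : sy x.1 i i = 0 := by
          unfold sy
          rw [dif_neg (lt_irrefl _), dif_neg (lt_irrefl _)]
        rw [h8, h9]
      · exact hd4 i j hij
    have e2 : (fun x s => L ℓ (P s) (d x)) = x.2 := by
      funext i s
      exact hd3 i s
    rw [e1, e2] at ha
    exact ha
  have hfin : {d : Fin r → k[X] | (∀ i, (d i).Monic ∧ Irreducible (d i) ∧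
      (d i).natDegree = n) ∧ ∀ c : k, c ≠ 0 → ShaPrimaryTrivial ℓ
          (C (algebraMap k[X] (RatFunc k) (C c * ∏ j, d j ^ t j)) *
            pencil (RatFunc k) h g) k[X]}.Finite := by
    refine Set.Finite.subset (Finset.finite_toSet
      (Fintype.piFinset fun _ : Fin r => Pr k n : Finset (Fin r → k[X]))) ?_
    rw [← hA]
    intro d hd
    exact hd.1
  have h3 := Set.ncard_le_ncard hsub hfin
  rw [Set.ncard_coe_finset] at h3
  exact_mod_cast h3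

theorem main (hMO : S_MO) {ℓ : ℕ} (hℓ : ℓ.Prime) (hℓ2 : ℓ ≠ 2) {m : ℕ} (hm : ¬ ℓ ∣ m + 1)
    {ε : ℝ} (hε : 0 < ε) : ∃ r0 : ℕ, ∀ r : ℕ, r0 ≤ r →
    ∀ (k : Type) [Field k] [Finite k], (2 : k) ≠ 0 → ℓ ∣ Nat.card k - 1 → ∀ N : ℕ,
    ∀ᶠ n : ℕ in atTop, ℓ ∣ n → ∀ h g : k[X], Pen ℓ h g → h.natDegree = m → g.natDegree = N →
      ∀ t : Fin r → ℕ, (∀ i, ¬ ℓ ∣ t i) →
      ((1 : ℝ) - 1 / ((ℓ : ℝ) - 1) - ε) *
        (({d : Fin r → k[X] | ∀ i, (d i).Monic ∧ Irreducible (d i) ∧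
          (d i).natDegree = n}).ncard : ℝ) ≤
        (({d : Fin r → k[X] | (∀ i, (d i).Monic ∧ Irreducible (d i) ∧
          (d i).natDegree = n) ∧ ∀ c : k, c ≠ 0 → ShaPrimaryTrivial ℓ
          (C (algebraMap k[X] (RatFunc k) (C c * ∏ j, d j ^ t j)) *
            pencil (RatFunc k) h g) k[X]}).ncard : ℝ) := by
  obtain ⟨r0, hr0⟩ := count_good hMO hℓ hℓ2 hm (half_pos hε)
  refine ⟨max r0 1, fun r hr k _ _ h2 hlk N => ?_⟩
  have hr1 : r0 ≤ r := (le_max_left _ _).trans hr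
  have hrpos : 0 < r := lt_of_lt_of_le one_pos ((le_max_right _ _).trans hr)
  exact main_gen hℓ hε hrpos (hr0 r hr1) k
    ⟨-1, (hℓ.odd_of_ne_two hℓ2).neg_one_pow⟩ h2 hlk N

theorem main_two (hMO : S_MO2) {m : ℕ} (hm : Even m) (hm2 : 2 ≤ m)
    {ε : ℝ} (hε : 0 < ε) : ∃ r0 : ℕ, ∀ r : ℕ, r0 ≤ r →
    ∀ (k : Type) [Field k] [Finite k], (2 : k) ≠ 0 → 2 ∣ Nat.card k - 1 → (∃ z : k, z ^ 2 = -1) →
    ∀ N : ℕ,
    ∀ᶠ n : ℕ in atTop, 2 ∣ n → ∀ h g : k[X], Pen 2 h g → h.natDegree = m → g.natDegree = N →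
      ∀ t : Fin r → ℕ, (∀ i, ¬ 2 ∣ t i) →
      ((1 : ℝ) / 6 - ε) *
        (({d : Fin r → k[X] | ∀ i, (d i).Monic ∧ Irreducible (d i) ∧
          (d i).natDegree = n}).ncard : ℝ) ≤
        (({d : Fin r → k[X] | (∀ i, (d i).Monic ∧ Irreducible (d i) ∧
          (d i).natDegree = n) ∧ ∀ c : k, c ≠ 0 → ShaPrimaryTrivial 2
          (C (algebraMap k[X] (RatFunc k) (C c * ∏ j, d j ^ t j)) *
            pencil (RatFunc k) h g) k[X]}).ncard : ℝ) := by
  obtain ⟨r0, hr0⟩ := hMO m hm hm2 (ε / 2) (half_pos hε)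
  refine ⟨max r0 1, fun r hr k _ _ h2 hlk hneg N => ?_⟩
  have hr1 : r0 ≤ r := (le_max_left _ _).trans hr
  have hrpos : 0 < r := lt_of_lt_of_le one_pos ((le_max_right _ _).trans hr)
  refine main_gen Nat.prime_two hε hrpos ?_ k hneg h2 hlk N
  intro t ht
  have ht1 : t = fun _ => 1 := by
    funext i
    have h1 : ∀ z : ZMod 2, z ≠ 0 → z = 1 := by decide
    exact h1 _ (ht i)
  have h1 := (hr0 r hr1).1
  refine h1.trans ?_
  have h3 : {x : X 2 m r | nsol x = 1} = Gd t := by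
    ext x
    rw [Set.mem_setOf_eq, Gd, Set.mem_setOf_eq, ht1]
    unfold nsol
    rw [Set.ncard_eq_one]
    constructor
    · rintro ⟨a, ha⟩ b hb
      have h0 : (0 : Fin r → V 2 m) ∈
          {a : Fin r → V 2 m | Sol (fun _ => 1) (sy x.1) x.2 a} := by
        intro y c
        simp
      have hb' : b ∈ {a : Fin r → V 2 m | Sol (fun _ => 1) (sy x.1) x.2 a} := hb
      rw [ha, Set.mem_singleton_iff] at h0 hb'
      rw [hb', h0]
    · intro h
      refine ⟨0, Set.eq_singleton_iff_unique_mem.2 ⟨?_, fun b hb => h b hb⟩⟩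
      intro y c
      simp
  rw [h3]

end Pool.Agent.D0H99.RM
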